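import Pool.Agent.W5h44.BMC.Conv
import Pool.Agent.W5h45.BM.Ultra

/-!
# Operators on the ultrapower and normalized differences of isometries
-/

set_option autoImplicit false

namespace Pool.Agent.W5h44.BMC

open Filter Topology ENNReal
open Pool.Agent.W5h45.BM (UF Xs Nl mem_Nl Up norm_mk seqEquiv seqEquiv_apply upIso upIso_mk cst
  cst_apply emb emb_apply up_transitive par_almost isClosed_Nl)

variable {E : Type*} [NormedAddCommGroup E] [NormedSpace ℝ E]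

/-- one step of the difference quotient -/
theorem step_pos (S : E ≃ₗᵢ[ℝ] E) (h0 : 0 < ‖dif S‖) {t : ℝ} (ht0 : 0 ≤ t) (x : E) :
    ‖x + t • ((‖dif S‖⁻¹ : ℝ) • dif S x)‖ ≤ (1 + t ^ 2 + ‖dif S‖) * ‖x‖ := by
  set δ := ‖dif S‖ with hδ
  set j := ⌊t / δ⌋₊ with hj
  have hj1 : (j : ℝ) ≤ t / δ := Nat.floor_le (by positivity)
  have hj2 : t / δ < j + 1 := Nat.lt_floor_add_one _
  have h1 := dif_pow S j
  set A : E →L[ℝ] E := (S.toContinuousLinearEquiv : E →L[ℝ] E) with hA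
  have e : x + t • ((δ⁻¹ : ℝ) • dif S x) = (A ^ j) x - (A ^ j - 1 - (j : ℝ) • dif S) x +
      (t / δ - j) • dif S x := by
    have h2 : (A ^ j - 1 - (j : ℝ) • dif S) x = (A ^ j) x - x - (j : ℝ) • dif S x := rfl
    rw [h2, smul_smul, sub_smul, div_eq_mul_inv]
    abel
  rw [e]
  have h3 : ‖(A ^ j) x‖ ≤ ‖x‖ := iso_pow_norm S j x
  have h4 : ‖(A ^ j - 1 - (j : ℝ) • dif S) x‖ ≤ t ^ 2 * ‖x‖ := by
    refine (ContinuousLinearMap.le_opNorm _ _).trans (mul_le_mul_of_nonneg_right ?_ (norm_nonneg _))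
    refine h1.trans ?_
    have h5 : ‖dif S * dif S‖ ≤ δ * δ := norm_mul_le _ _
    have h6 : (j : ℝ) * δ ≤ t := by rwa [le_div_iff₀ h0] at hj1
    have h7 : (j : ℝ) ^ 2 * ‖dif S * dif S‖ ≤ (j : ℝ) ^ 2 * (δ * δ) := by gcongr
    have h8 : 0 ≤ (j : ℝ) * δ := by positivity
    nlinarith
  have h5 : ‖(t / δ - j) • dif S x‖ ≤ δ * ‖x‖ := by
    rw [norm_smul, Real.norm_eq_abs, abs_of_nonneg (by linarith)]
    have h6 : ‖dif S x‖ ≤ δ * ‖x‖ := (dif S).le_opNorm x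
    have h7 : (t / δ - j) * ‖dif S x‖ ≤ 1 * ‖dif S x‖ :=
      mul_le_mul_of_nonneg_right (by linarith) (norm_nonneg _)
    linarith
  refine (norm_add_le _ _).trans ?_
  have h6 := norm_sub_le ((A ^ j) x) ((A ^ j - 1 - (j : ℝ) • dif S) x)
  nlinarith

theorem dif_symm_eq (S : E ≃ₗᵢ[ℝ] E) (x : E) : dif S.symm x = - S.symm (dif S x) := by
  rw [dif_apply, dif_apply, map_sub, S.symm_apply_apply]
  abel

theorem dif_symm_norm (S : E ≃ₗᵢ[ℝ] E) : ‖dif S.symm‖ = ‖dif S‖ := by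
  apply le_antisymm
  · refine ContinuousLinearMap.opNorm_le_bound _ (norm_nonneg _) fun x => ?_
    rw [dif_symm_eq, norm_neg, S.symm.norm_map]
    exact (dif S).le_opNorm x
  · refine ContinuousLinearMap.opNorm_le_bound _ (norm_nonneg _) fun x => ?_
    rw [← S.symm.norm_map, ← norm_neg, ← dif_symm_eq]
    exact (dif S.symm).le_opNorm x

theorem step_all (S : E ≃ₗᵢ[ℝ] E) (h0 : 0 < ‖dif S‖) {t : ℝ} (ht : |t| ≤ 1) (x : E) :
    ‖x + t • ((‖dif S‖⁻¹ : ℝ) • dif S x)‖ ≤ (1 + t ^ 2 + 2 * ‖dif S‖) * ‖x‖ := by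
  rcases le_total 0 t with h | h
  · refine (step_pos S h0 h x).trans ?_
    have := mul_nonneg (norm_nonneg (dif S)) (norm_nonneg x)
    nlinarith
  · have h1 := step_pos S.symm (by rwa [dif_symm_norm]) (t := -t) (by linarith) x
    rw [dif_symm_norm] at h1
    set δ := ‖dif S‖ with hδ
    have e : x + t • ((δ⁻¹ : ℝ) • dif S x) = (x + (-t) • ((δ⁻¹ : ℝ) • dif S.symm x)) +
        (t * δ⁻¹) • dif S (- dif S.symm x) := by
      have h2 : dif S x = - dif S.symm x + dif S (- dif S.symm x) := by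
        rw [dif_symm_eq, neg_neg, dif_apply S (S.symm _), S.apply_symm_apply]
        abel
      conv_lhs => rw [h2]
      rw [smul_add, smul_add, smul_neg, smul_neg, neg_smul, smul_smul t, smul_smul t]
      abel
    rw [e]
    refine (norm_add_le _ _).trans ?_
    have h3 : ‖(t * δ⁻¹) • dif S (- dif S.symm x)‖ ≤ δ * ‖x‖ := by
      rw [norm_smul, Real.norm_eq_abs, abs_mul, abs_of_pos (inv_pos.2 h0)]
      have h4 : ‖dif S (- dif S.symm x)‖ ≤ δ * (δ * ‖x‖) := by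
        refine ((dif S).le_opNorm _).trans ?_
        rw [norm_neg]
        have h5 := (dif S.symm).le_opNorm x
        rw [dif_symm_norm] at h5
        exact mul_le_mul_of_nonneg_left h5 (norm_nonneg _)
      calc |t| * δ⁻¹ * ‖dif S (- dif S.symm x)‖ ≤ 1 * δ⁻¹ * (δ * (δ * ‖x‖)) := by gcongr
        _ = δ * ‖x‖ := by field_simp
    nlinarith

/-- coordinatewise application of operators -/
noncomputable def seqOp (a : ℕ → E →L[ℝ] E) {C : ℝ} (hC : ∀ n, ‖a n‖ ≤ C) : Xs E →ₗ[ℝ] Xs E where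
  toFun x := ⟨fun n => a n (x n), by
    refine memℓp_infty ⟨C * ‖x‖, ?_⟩
    rintro _ ⟨n, rfl⟩
    exact (a n).le_of_opNorm_le_of_le (hC n) (lp.norm_apply_le_norm (by simp) x n)⟩
  map_add' x y := by
    ext n
    show a n ((x + y : Xs E) n) = a n (x n) + a n (y n)
    rw [lp.coeFn_add, Pi.add_apply, map_add]
  map_smul' c x := by
    ext n
    show a n ((c • x : Xs E) n) = c • a n (x n)
    rw [lp.coeFn_smul, Pi.smul_apply, map_smul]

theorem seqOp_apply (a : ℕ → E →L[ℝ] E) {C : ℝ} (hC : ∀ n, ‖a n‖ ≤ C) (x : Xs E) (n : ℕ) :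
    seqOp a hC x n = a n (x n) := rfl

/-- norms in the ultrapower -/
theorem up_le {x : Xs E} {f : ℕ → ℝ} {l : ℝ} (hf : Tendsto f (UF : Filter ℕ) (𝓝 l))
    (h : ∀ n, ‖x n‖ ≤ f n) : ‖(Submodule.Quotient.mk x : Up E)‖ ≤ l := by
  obtain ⟨m, hm⟩ := x.exists_lim
  rw [norm_mk hm]
  exact le_of_tendsto_of_tendsto' hm hf h

theorem le_up {x : Xs E} {f : ℕ → ℝ} {l : ℝ} (hf : Tendsto f (UF : Filter ℕ) (𝓝 l))
    (h : ∀ n, f n ≤ ‖x n‖) : l ≤ ‖(Submodule.Quotient.mk x : Up E)‖ := by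
  obtain ⟨m, hm⟩ := x.exists_lim
  rw [norm_mk hm]
  exact le_of_tendsto_of_tendsto' hf hm h

theorem seqOp_le {a : ℕ → E →L[ℝ] E} {C : ℝ} (hC : ∀ n, ‖a n‖ ≤ C) (x : Xs E) :
    ‖(Submodule.Quotient.mk (seqOp a hC x) : Up E)‖ ≤ C * ‖(Submodule.Quotient.mk x : Up E)‖ := by
  obtain ⟨m, hm⟩ := x.exists_lim
  rw [norm_mk hm]
  exact up_le (hm.const_mul C) fun n => (a n).le_of_opNorm_le (hC n) _

/-- the operator on the ultrapower -/
noncomputable def upOp (a : ℕ → E →L[ℝ] E) {C : ℝ} (hC : ∀ n, ‖a n‖ ≤ C) : Up E →L[ℝ] Up E :=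
  LinearMap.mkContinuous ((Nl E).mapQ (Nl E) (seqOp a hC) (by
    intro x hx
    rw [Submodule.mem_comap, ← Submodule.Quotient.mk_eq_zero, ← norm_eq_zero]
    refine le_antisymm ?_ (norm_nonneg _)
    refine (seqOp_le hC x).trans ?_
    rw [(Submodule.Quotient.mk_eq_zero (Nl E)).2 hx, norm_zero, mul_zero])) C (by
    intro x
    obtain ⟨x, rfl⟩ := Submodule.Quotient.mk_surjective _ x
    exact seqOp_le hC x)

theorem upOp_mk (a : ℕ → E →L[ℝ] E) {C : ℝ} (hC : ∀ n, ‖a n‖ ≤ C) (x : Xs E) :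
    upOp a hC (Submodule.Quotient.mk x) = Submodule.Quotient.mk (seqOp a hC x) := rfl

theorem up_inf (hE : ¬ FiniteDimensional ℝ E) : ¬ FiniteDimensional ℝ (Up E) := by
  intro h
  exact hE (FiniteDimensional.of_injective (emb (E := E)).toLinearMap (emb (E := E)).injective)

/-- a compact operator induces a compact operator on the ultrapower -/
theorem upOp_compact {K : E →L[ℝ] E} (hK : IsCompactOperator K) {C : ℝ} (hC : ∀ _ : ℕ, ‖K‖ ≤ C) :
    IsCompactOperator (upOp (fun _ => K) hC) := by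
  obtain ⟨K₁, hK₁, hK₁'⟩ := hK.image_closedBall_subset_compact 2
  refine ⟨emb '' K₁, hK₁.image (emb (E := E)).continuous, ?_⟩
  refine Filter.mem_of_superset (Metric.ball_mem_nhds (0 : Up E) one_pos) fun ξ hξ => ?_
  rw [mem_ball_zero_iff] at hξ
  obtain ⟨m, hm, hmn⟩ := Submodule.Quotient.norm_mk_lt (S := Nl E) ξ one_pos
  have hmn' : ∀ n, K (m n) ∈ K₁ := fun n => by
    apply hK₁'
    refine ⟨m n, ?_, rfl⟩
    rw [mem_closedBall_zero_iff]
    have := lp.norm_apply_le_norm (by simp) m n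
    linarith
  obtain ⟨y, hy, hlim⟩ := hK₁.ultrafilter_le_nhds (UF.map fun n => K (m n)) (by
    rw [Ultrafilter.coe_map, le_principal_iff]
    exact Filter.mem_map.2 (Filter.univ_mem' hmn'))
  have hlim' : Tendsto (fun n => K (m n)) (UF : Filter ℕ) (𝓝 y) := hlim
  refine ⟨y, hy, ?_⟩
  rw [← hm, upOp_mk, emb_apply, Submodule.Quotient.eq, mem_Nl]
  have h1 : Tendsto (fun n => ‖y - K (m n)‖) (UF : Filter ℕ) (𝓝 0) := by
    have h2 := (tendsto_const_nhds (x := y)).sub hlim'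
    rw [sub_self] at h2
    simpa using h2.norm
  exact h1

/-- **Small compact perturbations.**  -/
theorem par_small [CompleteSpace E] (hE : ¬ FiniteDimensional ℝ E)
    (hat : ∀ x y : E, ‖x‖ = 1 → ‖y‖ = 1 → ∀ ε : ℝ, 0 < ε → ∃ T : E ≃ₗᵢ[ℝ] E, ‖T x - y‖ < ε)
    (hsm : ∀ ε : ℝ, 0 < ε → ∃ S : E ≃ₗᵢ[ℝ] E, dif S ≠ 0 ∧ IsCompactOperator (dif S) ∧ ‖dif S‖ ≤ ε)
    (x y : E) :
    ‖x + y‖ ^ 2 + ‖x - y‖ ^ 2 = 2 * ‖x‖ ^ 2 + 2 * ‖y‖ ^ 2 := by
  have hE' := up_inf hE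
  have hn0 : ∀ n : ℕ, (0 : ℝ) < 1 / ((n : ℝ) + 1) := fun n => by positivity
  have hlim : Tendsto (fun n : ℕ => 1 / ((n : ℝ) + 1)) (UF : Filter ℕ) (𝓝 0) :=
    tendsto_one_div_add_atTop_nhds_zero_nat.mono_left (Nat.hyperfilter_le_atTop)
  choose S hS0 hSc hSn using fun n : ℕ => hsm (1 / ((n : ℝ) + 1)) (hn0 n)
  have hpos : ∀ n, 0 < ‖dif (S n)‖ := fun n => norm_pos_iff.2 (hS0 n)
  set b : ℕ → E →L[ℝ] E := fun n => (‖dif (S n)‖⁻¹ : ℝ) • dif (S n) with hb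
  have hb1 : ∀ n, ‖b n‖ = 1 := fun n => by
    rw [hb]
    simp only
    rw [norm_smul, norm_inv, norm_norm, inv_mul_cancel₀ (hpos n).ne']
  have hb2 : ∀ n, ‖b n‖ ≤ 1 := fun n => (hb1 n).le
  set B : Up E →L[ℝ] Up E := upOp b hb2 with hB
  have : Nontrivial (Up E) := Pool.Agent.TH596.RO.nontriv hE'
  have hskew : Skew B := by
    rw [skew_iff]
    refine ⟨1, fun t ξ ht => ?_⟩
    obtain ⟨z, rfl⟩ := Submodule.Quotient.mk_surjective _ ξ
    obtain ⟨l, hl⟩ := z.exists_lim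
    rw [hB, upOp_mk, ← Submodule.Quotient.mk_smul, ← Submodule.Quotient.mk_add, norm_mk hl]
    have h1 : Tendsto (fun n : ℕ => (1 + t ^ 2 + 2 * (1 / ((n : ℝ) + 1))) * ‖z n‖) (UF : Filter ℕ)
        (𝓝 ((1 + t ^ 2 + 2 * 0) * l)) :=
      ((hlim.const_mul 2).const_add (1 + t ^ 2)).mul hl
    have h2 : (1 + 1 * t ^ 2) * l = (1 + t ^ 2 + 2 * 0) * l := by ring
    rw [h2]
    refine up_le h1 fun n => ?_
    show ‖z n + t • ((‖dif (S n)‖⁻¹ : ℝ) • dif (S n) (z n))‖ ≤ _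
    refine (step_all (S n) (hpos n) ht (z n)).trans ?_
    have := hSn n
    gcongr
  have hB0 : B ≠ 0 := by
    intro h0
    have hex : ∀ n, ∃ z : E, ‖z‖ < 1 ∧ 1 / 2 < ‖b n z‖ := fun n =>
      (b n).exists_lt_apply_of_lt_opNorm (by rw [hb1]; norm_num)
    choose z hz1 hz2 using hex
    set w : Xs E := ⟨z, memℓp_infty ⟨1, by rintro _ ⟨n, rfl⟩; exact (hz1 n).le⟩⟩ with hw
    have h1 : (1 / 2 : ℝ) ≤ ‖(Submodule.Quotient.mk (seqOp b hb2 w) : Up E)‖ :=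
      le_up (tendsto_const_nhds (x := (1 / 2 : ℝ))) fun n => (hz2 n).le
    rw [← upOp_mk, ← hB, h0] at h1
    simp at h1
    linarith
  have hker : ∀ ε : ℝ, 0 < ε → ∃ ζ : Up E, ‖ζ‖ = 1 ∧ ‖B ζ‖ ≤ ε := by
    intro ε hε
    choose z hz1 hz2 using fun n : ℕ => compact_small hE (hSc n)
      (mul_pos (hpos n) (hn0 n))
    set w : Xs E := ⟨z, memℓp_infty ⟨1, by rintro _ ⟨n, rfl⟩; exact (hz1 n).le⟩⟩ with hw
    refine ⟨Submodule.Quotient.mk w, norm_mk ?_, ?_⟩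
    · show Tendsto (fun n => ‖z n‖) (UF : Filter ℕ) (𝓝 1)
      simp only [hz1]
      exact tendsto_const_nhds
    · refine le_trans ?_ hε.le
      rw [hB, upOp_mk]
      refine up_le hlim fun n => ?_
      show ‖(‖dif (S n)‖⁻¹ : ℝ) • dif (S n) (z n)‖ ≤ _
      rw [norm_smul, norm_inv, norm_norm, inv_mul_le_iff₀ (hpos n)]
      exact hz2 n
  -- the compact perturbation
  have hC : ∀ n : ℕ, ‖dif (S 0)‖ ≤ ‖dif (S 0)‖ := fun _ => le_rfl
  set K : Up E →L[ℝ] Up E := upOp (fun _ => dif (S 0)) hC with hK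
  have hKc : IsCompactOperator K := upOp_compact (hSc 0) hC
  have hK0 : K ≠ 0 := by
    intro h0
    apply hS0 0
    ext z
    have h1 : K (emb z) = emb (dif (S 0) z) := rfl
    rw [h0] at h1
    have h2 : emb (dif (S 0) z) = 0 := h1.symm
    have h3 := (emb (E := E)).norm_map (dif (S 0) z)
    rw [h2, norm_zero] at h3
    exact norm_eq_zero.1 h3.symm
  have hT : ∀ ξ : Up E, upIso (fun _ => S 0) ξ = ξ + K ξ := by
    intro ξ
    obtain ⟨z, rfl⟩ := Submodule.Quotient.mk_surjective _ ξ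
    rw [upIso_mk, hK, upOp_mk, ← Submodule.Quotient.mk_add]
    congr 1
    ext n
    show S 0 (z n) = z n + (S 0 (z n) - z n)
    abel
  have htr := up_transitive hat
  have hat' : ∀ x y : Up E, ‖x‖ = 1 → ‖y‖ = 1 → ∀ ε : ℝ, 0 < ε →
      ∃ T : Up E ≃ₗᵢ[ℝ] Up E, ‖T x - y‖ < ε := by
    intro x y hx hy ε hε
    obtain ⟨T, hT⟩ := htr x y hx hy
    exact ⟨T, by rw [hT, sub_self, norm_zero]; exact hε⟩
  obtain ⟨k, hk⟩ := near_of_skew_compact hE' hat' hskew hB0 hker _ hKc hK0 hT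
  have h5 := par_almost hat' k (1 / 8) (by norm_num) hk (emb x) (emb y)
  rw [← map_add, ← map_sub, LinearIsometry.norm_map, LinearIsometry.norm_map,
    LinearIsometry.norm_map, LinearIsometry.norm_map] at h5
  exact h5

end Pool.Agent.W5h44.BMC
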