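import Pool.Agent.W5h44.BMC.Ess
import Pool.Agent.W5h44.BMC.Up2

/-!
# The theorem on compact perturbations: assembly
-/

set_option autoImplicit false

namespace Pool.Agent.W5h44.BMC

open Filter Topology
open Pool.Agent.W5h45.BM (par_almost)

variable {E : Type*} [NormedAddCommGroup E] [NormedSpace ℝ E]

/-- finite rank operators are compact -/
theorem compact_of_fd (a : E →L[ℝ] E) (V : Submodule ℝ E) [FiniteDimensional ℝ V] (h : ∀ x, a x ∈ V) :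
    IsCompactOperator a := by
  have : ProperSpace V := FiniteDimensional.proper ℝ V
  have h2 : IsCompactOperator (a.codRestrict V h) :=
    isCompactOperator_of_locallyCompactSpace_dom (a.codRestrict V h)
  exact h2.clm_comp V.subtypeL

theorem par_fin [FiniteDimensional ℝ E]
    (hat : ∀ x y : E, ‖x‖ = 1 → ‖y‖ = 1 → ∀ ε : ℝ, 0 < ε → ∃ T : E ≃ₗᵢ[ℝ] E, ‖T x - y‖ < ε)
    (T : E ≃ₗᵢ[ℝ] E) (hT : dif T ≠ 0) (x y : E) :
    ‖x + y‖ ^ 2 + ‖x - y‖ ^ 2 = 2 * ‖x‖ ^ 2 + 2 * ‖y‖ ^ 2 := by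
  have : CompleteSpace E := FiniteDimensional.complete ℝ E
  obtain ⟨z, hz⟩ : ∃ z, T z ≠ z := by
    by_contra h
    push Not at h
    apply hT
    ext z
    exact sub_eq_zero.2 (h z)
  have hz0 : z ≠ 0 := fun h0 => hz (by rw [h0, map_zero])
  have hδ : 0 < ‖T ((‖z‖⁻¹ : ℝ) • z) - (‖z‖⁻¹ : ℝ) • z‖ := by
    rw [norm_pos_iff, sub_ne_zero, map_smul]
    intro h1
    exact hz (smul_right_injective E (inv_ne_zero (norm_ne_zero_iff.2 hz0)) h1)
  refine par_almost hat (Module.finrank ℝ E) _ hδ (fun ε hε => ⟨T, ⊤, inferInstance, ?_,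
    ⟨(‖z‖⁻¹ : ℝ) • z, (norm_smul_inv_norm (𝕜 := ℝ) hz0).le, le_rfl⟩,
    fun w => ⟨T w - w, Submodule.mem_top, ?_⟩⟩) x y
  · exact Submodule.finrank_le _
  · rw [sub_self, norm_zero]
    positivity

theorem at_of_tr (htr : ∀ x y : E, ‖x‖ = 1 → ‖y‖ = 1 → ∃ T : E ≃ₗᵢ[ℝ] E, T x = y) :
    ∀ x y : E, ‖x‖ = 1 → ‖y‖ = 1 → ∀ ε : ℝ, 0 < ε → ∃ T : E ≃ₗᵢ[ℝ] E, ‖T x - y‖ < ε := by
  intro x y hx hy ε hε
  obtain ⟨T, hT⟩ := htr x y hx hy
  exact ⟨T, by rw [hT, sub_self, norm_zero]; exact hε⟩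

variable [CompleteSpace E]

/-- almost transitive norms -/
theorem par_at
    (hat : ∀ x y : E, ‖x‖ = 1 → ‖y‖ = 1 → ∀ ε : ℝ, 0 < ε → ∃ T : E ≃ₗᵢ[ℝ] E, ‖T x - y‖ < ε)
    (hsm : ∀ ε : ℝ, 0 < ε → ∃ S : E ≃ₗᵢ[ℝ] E, dif S ≠ 0 ∧ EssQN (dif S) ∧ ‖dif S‖ ≤ ε) (x y : E) :
    ‖x + y‖ ^ 2 + ‖x - y‖ ^ 2 = 2 * ‖x‖ ^ 2 + 2 * ‖y‖ ^ 2 := by
  by_cases hE : FiniteDimensional ℝ E
  · obtain ⟨S, hS, -⟩ := hsm 1 one_pos
    exact par_fin hat S hS x y
  · refine par_small hE hat (fun ε hε => ?_) x y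
    obtain ⟨S, hS1, hS2, hS3⟩ := hsm ε hε
    exact ⟨S, hS1, compact_of_essQN S hS2, hS3⟩

/-- separable spaces with a transitive norm -/
theorem par_sep [TopologicalSpace.SeparableSpace E]
    (htr : ∀ x y : E, ‖x‖ = 1 → ‖y‖ = 1 → ∃ T : E ≃ₗᵢ[ℝ] E, T x = y)
    (T : E ≃ₗᵢ[ℝ] E) (hT : dif T ≠ 0) (hT' : EssQN (dif T)) (x y : E) :
    ‖x + y‖ ^ 2 + ‖x - y‖ ^ 2 = 2 * ‖x‖ ^ 2 + 2 * ‖y‖ ^ 2 := by
  by_cases hE : FiniteDimensional ℝ E
  · exact par_fin (at_of_tr htr) T hT x y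
  · exact par_small hE (at_of_tr htr) (fun ε hε => exists_small hE htr T (compact_of_essQN T hT') hT hε) x y

/-- compact skew operators give small compact perturbations -/
theorem small_of_skew [Nontrivial E] {a : E →L[ℝ] E} (ha : Skew a) (hac : IsCompactOperator a) (ha0 : a ≠ 0)
    {ε : ℝ} (hε : 0 < ε) :
    ∃ S : E ≃ₗᵢ[ℝ] E, dif S ≠ 0 ∧ IsCompactOperator (dif S) ∧ ‖dif S‖ ≤ ε := by
  have hd : ∀ t : ℝ, dif (ha.iso t) = NormedSpace.exp (t • a) - 1 := fun t => rfl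
  have hc : ∀ t : ℝ, IsCompactOperator (dif (ha.iso t)) := by
    intro t
    obtain ⟨Ψ, h1, -, -⟩ := exp_factor (t • a)
    rw [hd, h1]
    exact IsCompactOperator.comp_clm (hac.smul t) Ψ
  have hn : Tendsto (fun t : ℝ => Real.exp ‖t • a‖ - 1) (𝓝 0) (𝓝 0) := by
    have h1 : Continuous fun t : ℝ => Real.exp ‖t • a‖ - 1 :=
      ((Real.continuous_exp.comp (continuous_norm.comp (continuous_id.smul continuous_const))).sub
        continuous_const)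
    have h2 := h1.tendsto 0
    simpa using h2
  have hn' : ∀ᶠ t : ℝ in 𝓝 0, Real.exp ‖t • a‖ - 1 < ε := hn.eventually (gt_mem_nhds hε)
  by_contra hcon
  push Not at hcon
  have h1 : ∀ᶠ t : ℝ in 𝓝 0, NormedSpace.exp (t • a) = 1 := by
    filter_upwards [hn'] with t ht
    by_contra h2
    have h3 : dif (ha.iso t) ≠ 0 := by
      rw [hd]
      exact sub_ne_zero.2 h2
    have h4 := hcon _ h3 (hc t)
    rw [hd] at h4
    have h5 := norm_exp_sub_one_le (t • a)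
    linarith
  apply ha0
  ext x
  have h2 := hasDerivAt_apply a x
  have h3 : (fun t : ℝ => NormedSpace.exp (t • a) x) =ᶠ[𝓝 0] fun _ => x := by
    filter_upwards [h1] with t ht
    rw [ht]
    rfl
  exact (h2.congr_of_eventuallyEq h3.symm).unique (hasDerivAt_const _ _)

section Hilbert

variable {H : Type*} [NormedAddCommGroup H] [InnerProductSpace ℝ H]

open scoped InnerProductSpace

omit [CompleteSpace E] in
/-- Hilbert spaces of dimension at least two have compact skew operators -/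
theorem exists_skew [Nontrivial E] [CompleteSpace E] (Φ : E ≃ₗᵢ[ℝ] H) {x y : E}
    (hxy : LinearIndependent ℝ ![x, y]) :
    ∃ a : E →L[ℝ] E, a ≠ 0 ∧ IsCompactOperator a ∧ Skew a := by
  set u := Φ x with hu
  set v := Φ y with hv
  set aH : H →L[ℝ] H := (innerSL ℝ u).smulRight v - (innerSL ℝ v).smulRight u with haH
  have haHx : ∀ w, aH w = ⟪u, w⟫_ℝ • v - ⟪v, w⟫_ℝ • u := fun w => rfl
  set P : E →L[ℝ] H := (Φ.toContinuousLinearEquiv : E →L[ℝ] H) with hP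
  set Q : H →L[ℝ] E := (Φ.symm.toContinuousLinearEquiv : H →L[ℝ] E) with hQ
  set a : E →L[ℝ] E := Q.comp (aH.comp P) with ha
  have hax : ∀ w, a w = Φ.symm (aH (Φ w)) := fun w => rfl
  refine ⟨a, ?_, ?_, ?_⟩
  · intro h0
    have h1 : a x = 0 := by rw [h0]; rfl
    rw [hax, haHx, map_sub, map_smul, map_smul, hu, hv, Φ.symm_apply_apply, Φ.symm_apply_apply] at h1
    rw [LinearIndependent.pair_iff] at hxy
    have h2 := hxy (-⟪Φ y, Φ x⟫_ℝ) ⟪Φ x, Φ x⟫_ℝ (by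
      rw [neg_smul, neg_add_eq_sub]
      exact h1)
    have h3 : Φ x = 0 := inner_self_eq_zero.1 h2.2
    have h4 : x = 0 := by
      rw [← Φ.symm_apply_apply x, h3, map_zero]
    have h5 := hxy 1 0 (by rw [h4]; simp)
    exact one_ne_zero h5.1
  · have : FiniteDimensional ℝ (Submodule.span ℝ ({x, y} : Set E)) :=
      FiniteDimensional.span_of_finite ℝ (Set.toFinite _)
    refine compact_of_fd a (Submodule.span ℝ {x, y}) fun w => ?_
    rw [hax, haHx, map_sub, map_smul, map_smul, hu, hv, Φ.symm_apply_apply, Φ.symm_apply_apply]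
    exact Submodule.sub_mem _ (Submodule.smul_mem _ _ (Submodule.subset_span (by simp)))
      (Submodule.smul_mem _ _ (Submodule.subset_span (by simp)))
  · rw [skew_iff]
    refine ⟨‖a‖ ^ 2, fun t w _ => ?_⟩
    have h1 : ⟪Φ w, aH (Φ w)⟫_ℝ = 0 := by
      rw [haHx, inner_sub_right, inner_smul_right, inner_smul_right, real_inner_comm (Φ w) u,
        real_inner_comm (Φ w) v]
      ring
    have h2 : ‖w + t • a w‖ ^ 2 = ‖w‖ ^ 2 + t ^ 2 * ‖a w‖ ^ 2 := by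
      have e1 : ‖w + t • a w‖ = ‖Φ w + t • aH (Φ w)‖ := by
        rw [← Φ.norm_map, map_add, map_smul, hax, Φ.apply_symm_apply]
      have e2 : ‖a w‖ = ‖aH (Φ w)‖ := by rw [hax, Φ.symm.norm_map]
      rw [e1, e2, ← Φ.norm_map w, norm_add_sq_real, inner_smul_right, h1, norm_smul, Real.norm_eq_abs,
        mul_pow, sq_abs]
      ring
    have h3 : ‖a w‖ ≤ ‖a‖ * ‖w‖ := a.le_opNorm w
    have h4 : ‖w + t • a w‖ ^ 2 ≤ ((1 + ‖a‖ ^ 2 * t ^ 2) * ‖w‖) ^ 2 := by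
      rw [h2]
      have h5 : ‖a w‖ ^ 2 ≤ (‖a‖ * ‖w‖) ^ 2 := pow_le_pow_left₀ (norm_nonneg _) h3 2
      have h6 : t ^ 2 * ‖a w‖ ^ 2 ≤ t ^ 2 * (‖a‖ * ‖w‖) ^ 2 := mul_le_mul_of_nonneg_left h5 (sq_nonneg t)
      have h7 : 0 ≤ (‖a‖ ^ 2 * t ^ 2) ^ 2 * ‖w‖ ^ 2 := by positivity
      have h8 : 0 ≤ ‖a‖ ^ 2 * t ^ 2 * ‖w‖ ^ 2 := by positivity
      nlinarith
    exact le_of_sq_le_sq h4 (by positivity)

end Hilbert

end Pool.Agent.W5h44.BMC
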