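import Pool.Agent.W5h44.BMC.Liou
import Pool.Agent.TH596.RO.Main

/-!
# Conjugates and commutators of skew operators; the growth of iterated commutators
-/

set_option autoImplicit false

namespace Pool.Agent.W5h44.BMC

open Filter Topology Pool.Agent.TH596.RO

section alg

variable {A : Type*} [NormedRing A] [NormedAlgebra ℝ A]

theorem lmul_pow (u c : A) (n : ℕ) : ((ContinuousLinearMap.mul ℝ A u) ^ n) c = u ^ n * c := by
  induction n with
  | zero => simp
  | succ n ih =>
    rw [pow_succ', mul_apply_eq_comp, ih]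
    show u * (u ^ n * c) = _
    rw [pow_succ', mul_assoc]

theorem rmul_pow (u c : A) (n : ℕ) : (((ContinuousLinearMap.mul ℝ A).flip u) ^ n) c = c * u ^ n := by
  induction n with
  | zero => simp
  | succ n ih =>
    rw [pow_succ', mul_apply_eq_comp, ih]
    show (c * u ^ n) * u = _
    rw [pow_succ, mul_assoc]

variable [CompleteSpace A]

theorem exp_lmul (u c : A) :
    NormedSpace.exp (ContinuousLinearMap.mul ℝ A u) c = NormedSpace.exp u * c := by
  have h1 := NormedSpace.exp_series_hasSum_exp' (𝕂 := ℝ) (ContinuousLinearMap.mul ℝ A u)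
  have h2 := h1.mapL (ContinuousLinearMap.apply ℝ A c)
  have h3 := (NormedSpace.exp_series_hasSum_exp' (𝕂 := ℝ) u).mul_right c
  have e : (fun n : ℕ => (ContinuousLinearMap.apply ℝ A c)
      ((n.factorial : ℝ)⁻¹ • (ContinuousLinearMap.mul ℝ A u) ^ n)) =
      fun n : ℕ => (n.factorial : ℝ)⁻¹ • u ^ n * c := by
    funext n
    show ((n.factorial : ℝ)⁻¹ • (ContinuousLinearMap.mul ℝ A u) ^ n) c = _
    rw [smul_apply, lmul_pow, smul_mul_assoc]
  rw [e] at h2
  exact h2.unique h3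

theorem exp_rmul (u c : A) :
    NormedSpace.exp ((ContinuousLinearMap.mul ℝ A).flip u) c = c * NormedSpace.exp u := by
  have h1 := NormedSpace.exp_series_hasSum_exp' (𝕂 := ℝ) ((ContinuousLinearMap.mul ℝ A).flip u)
  have h2 := h1.mapL (ContinuousLinearMap.apply ℝ A c)
  have h3 := (NormedSpace.exp_series_hasSum_exp' (𝕂 := ℝ) u).mul_left c
  have e : (fun n : ℕ => (ContinuousLinearMap.apply ℝ A c)
      ((n.factorial : ℝ)⁻¹ • ((ContinuousLinearMap.mul ℝ A).flip u) ^ n)) =
      fun n : ℕ => c * ((n.factorial : ℝ)⁻¹ • u ^ n) := by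
    funext n
    show ((n.factorial : ℝ)⁻¹ • ((ContinuousLinearMap.mul ℝ A).flip u) ^ n) c = _
    rw [smul_apply, rmul_pow, mul_smul_comm]
  rw [e] at h2
  exact h2.unique h3

/-- the operator `c ↦ a c - c a` -/
noncomputable def adL (a : A) : A →L[ℝ] A :=
  ContinuousLinearMap.mul ℝ A a - (ContinuousLinearMap.mul ℝ A).flip a

omit [CompleteSpace A] in
theorem adL_apply (a c : A) : adL a c = a * c - c * a := rfl

theorem exp_adL (a c : A) (t : ℝ) :
    NormedSpace.exp (t • adL a) c = NormedSpace.exp (t • a) * c * NormedSpace.exp (-(t • a)) := by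
  have e1 : t • adL a = ContinuousLinearMap.mul ℝ A (t • a) +
      (ContinuousLinearMap.mul ℝ A).flip (-(t • a)) := by
    ext c
    show t • (a * c - c * a) = (t • a) * c + c * (-(t • a))
    rw [smul_sub, smul_mul_assoc, mul_neg, mul_smul_comm]
    abel
  have e2 : Commute (ContinuousLinearMap.mul ℝ A (t • a))
      ((ContinuousLinearMap.mul ℝ A).flip (-(t • a))) := by
    show _ * _ = _ * _
    ext c
    show (t • a) * (c * (-(t • a))) = ((t • a) * c) * (-(t • a))
    rw [mul_assoc]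
  rw [e1, exp_add_c e2, mul_apply_eq_comp, exp_lmul, exp_rmul, mul_assoc]

theorem hasDerivAt_apply {Y : Type*} [NormedAddCommGroup Y] [NormedSpace ℝ Y] [CompleteSpace Y]
    (D : Y →L[ℝ] Y) (y : Y) : HasDerivAt (fun t : ℝ => NormedSpace.exp (t • D) y) (D y) 0 := by
  have h5 := hasDerivAt_exp_smul_const (𝕂 := ℝ) D (0 : ℝ)
  rw [zero_smul, NormedSpace.exp_zero, one_mul] at h5
  exact ((ContinuousLinearMap.apply ℝ Y y).hasFDerivAt).comp_hasDerivAt (0 : ℝ) h5

/-- difference quotients along `1 / (n + 1)` -/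
theorem quot_tendsto {Y : Type*} [NormedAddCommGroup Y] [NormedSpace ℝ Y] {f : ℝ → Y} {f' : Y}
    (h : HasDerivAt f f' 0) :
    Tendsto (fun n : ℕ => ((n : ℝ) + 1) • (f (1 / ((n : ℝ) + 1)) - f 0)) atTop (𝓝 f') := by
  have h2 := h.tendsto_slope_zero
  have h3 : Tendsto (fun n : ℕ => (1 / ((n : ℝ) + 1))) atTop (𝓝[≠] (0 : ℝ)) := by
    refine tendsto_nhdsWithin_iff.2 ⟨tendsto_one_div_add_atTop_nhds_zero_nat, ?_⟩
    refine Filter.Eventually.of_forall fun n => ?_
    have : (0 : ℝ) < 1 / ((n : ℝ) + 1) := by positivity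
    exact this.ne'
  refine (h2.comp h3).congr fun n => ?_
  rw [Function.comp_apply, zero_add, one_div, inv_inv]

theorem ad_limit (a b : A) : Tendsto (fun n : ℕ => ((n : ℝ) + 1) •
    (NormedSpace.exp ((1 / ((n : ℝ) + 1)) • a) * b * NormedSpace.exp (-((1 / ((n : ℝ) + 1)) • a)) - b))
    atTop (𝓝 (a * b - b * a)) := by
  have h := quot_tendsto (hasDerivAt_apply (adL a) b)
  rw [adL_apply] at h
  refine h.congr fun n => ?_
  rw [exp_adL, zero_smul, NormedSpace.exp_zero]
  rfl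

end alg

variable {E : Type*} [NormedAddCommGroup E] [NormedSpace ℝ E] [CompleteSpace E]

omit [CompleteSpace E] in
theorem Skew.norm_exp_le_one {a : E →L[ℝ] E} (ha : Skew a) (t : ℝ) : ‖NormedSpace.exp (t • a)‖ ≤ 1 :=
  ContinuousLinearMap.opNorm_le_bound _ zero_le_one fun x => by
    rw [one_mul]
    exact ha t x

theorem Skew.cj [Nontrivial E] {a : E →L[ℝ] E} (ha : Skew a) (g : E ≃ₗᵢ[ℝ] E) : Skew (cj g a) := by
  obtain ⟨C, hC⟩ := (skew_iff a).1 ha
  refine (skew_iff _).2 ⟨C, fun t x ht => ?_⟩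
  have h1 := hC t (g.symm x) ht
  rw [g.symm.norm_map] at h1
  have e : x + t • Pool.Agent.TH596.RO.cj g a x = g (g.symm x + t • a (g.symm x)) := by
    rw [map_add, g.apply_symm_apply, map_smul]
    rfl
  rw [e, g.norm_map]
  exact h1

theorem Skew.comm [Nontrivial E] {a b : E →L[ℝ] E} (ha : Skew a) (hb : Skew b) : Skew (a * b - b * a) := by
  refine skew_closed (ad_limit a b) fun n => (Skew.sub ?_ hb).smul _
  have e : NormedSpace.exp ((1 / ((n : ℝ) + 1)) • a) * b * NormedSpace.exp (-((1 / ((n : ℝ) + 1)) • a)) =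
      Pool.Agent.TH596.RO.cj (ha.iso (1 / ((n : ℝ) + 1))) b := rfl
  rw [e]
  exact hb.cj _

/-- iterated commutators -/
noncomputable def adk (a b : E →L[ℝ] E) : ℕ → E →L[ℝ] E
  | 0 => b
  | k + 1 => a * adk a b k - adk a b k * a

omit [CompleteSpace E] in
theorem adk_eq (a b : E →L[ℝ] E) (k : ℕ) : adk a b k = ((adL a) ^ k) b := by
  induction k with
  | zero => rfl
  | succ k ih =>
    rw [pow_succ', mul_apply_eq_comp, ← ih]
    rfl

theorem Skew.adk [Nontrivial E] {a b : E →L[ℝ] E} (ha : Skew a) (hb : Skew b) (k : ℕ) :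
    Skew (adk a b k) := by
  induction k with
  | zero => exact hb
  | succ k ih => exact ha.comm ih

theorem ad_growth {a b : E →L[ℝ] E} (ha : Skew a) (hab : a * b - b * a ≠ 0) :
    ∃ ρ : ℝ, 0 < ρ ∧ ∀ C : ℝ, ∃ k : ℕ, C * ρ ^ k < ‖adk a b k‖ := by
  by_contra hcon
  push Not at hcon
  apply hab
  refine gelfand_hille (adL a) b ‖b‖ (fun t => ?_) (fun ε hε => ?_)
  · rw [exp_adL]
    have h1 := ha.norm_exp_le_one t
    have h2 := ha.norm_exp_le_one (-t)
    rw [neg_smul] at h2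
    calc ‖NormedSpace.exp (t • a) * b * NormedSpace.exp (-(t • a))‖
        ≤ ‖NormedSpace.exp (t • a) * b‖ * ‖NormedSpace.exp (-(t • a))‖ := norm_mul_le _ _
      _ ≤ (‖NormedSpace.exp (t • a)‖ * ‖b‖) * ‖NormedSpace.exp (-(t • a))‖ :=
          mul_le_mul_of_nonneg_right (norm_mul_le _ _) (norm_nonneg _)
      _ ≤ (1 * ‖b‖) * 1 := by gcongr
      _ = ‖b‖ := by ring
  · obtain ⟨C, hC⟩ := hcon ε hε
    exact ⟨C, fun k => by rw [← adk_eq]; exact hC k⟩

end Pool.Agent.W5h44.BMC
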