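import Pool.Agent.W5h44.BMC.Nc
import Pool.Agent.TH596.RO.LaC

/-!
# If `g n → 1` strongly and `T - 1` is compact then `g n T (g n)⁻¹ → T` in norm
-/

set_option autoImplicit false

namespace Pool.Agent.W5h44.BMC

open Filter Topology Pool.Agent.TH596.RO Pool.H590R3.Ab

variable {E : Type*} [NormedAddCommGroup E] [NormedSpace ℝ E]

/-- the operator of an isometry minus the identity -/
noncomputable def dif (T : E ≃ₗᵢ[ℝ] E) : E →L[ℝ] E := (T.toContinuousLinearEquiv : E →L[ℝ] E) - 1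

theorem dif_apply (T : E ≃ₗᵢ[ℝ] E) (x : E) : dif T x = T x - x := rfl

theorem dif_norm_le (T : E ≃ₗᵢ[ℝ] E) (x : E) : ‖dif T x‖ ≤ 2 * ‖x‖ := by
  rw [dif_apply]
  refine (norm_sub_le _ _).trans ?_
  rw [T.norm_map]
  linarith

theorem opNorm_iso_le (T : E ≃ₗᵢ[ℝ] E) : ‖(T.toContinuousLinearEquiv : E →L[ℝ] E)‖ ≤ 1 :=
  ContinuousLinearMap.opNorm_le_bound _ zero_le_one fun x => by
    rw [one_mul]
    exact (T.norm_map x).le

/-- the powers of an isometry near `1` -/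
theorem dif_pow (T : E ≃ₗᵢ[ℝ] E) (k : ℕ) :
    ‖(T.toContinuousLinearEquiv : E →L[ℝ] E) ^ k - 1 - (k : ℝ) • dif T‖ ≤
      (k : ℝ) ^ 2 * ‖dif T * dif T‖ := by
  set S : E →L[ℝ] E := (T.toContinuousLinearEquiv : E →L[ℝ] E) with hS
  have hS1 : ‖S‖ ≤ 1 := opNorm_iso_le T
  have hSQ : S = 1 + dif T := by rw [dif, add_sub_cancel]
  induction k with
  | zero => simp
  | succ k ih =>
    have e1 : S ^ (k + 1) - 1 - ((k + 1 : ℕ) : ℝ) • dif T =
        S * (S ^ k - 1 - (k : ℝ) • dif T) + (k : ℝ) • (dif T * dif T) := by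
      rw [pow_succ', mul_sub, mul_sub, mul_smul_comm, mul_one]
      have e2 : S * dif T = dif T + dif T * dif T := by
        rw [hSQ, add_mul, one_mul]
      rw [e2, hSQ]
      push_cast
      rw [smul_add, add_smul, one_smul]
      abel
    rw [e1]
    refine (norm_add_le _ _).trans ?_
    rw [norm_smul, Real.norm_natCast]
    have h1 : ‖S * (S ^ k - 1 - (k : ℝ) • dif T)‖ ≤ 1 * ((k : ℝ) ^ 2 * ‖dif T * dif T‖) :=
      (norm_mul_le _ _).trans (mul_le_mul hS1 ih (norm_nonneg _) zero_le_one)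
    push_cast
    nlinarith [norm_nonneg (dif T * dif T), (Nat.cast_nonneg k : (0 : ℝ) ≤ k),
      mul_nonneg (Nat.cast_nonneg k : (0 : ℝ) ≤ k) (norm_nonneg (dif T * dif T))]

theorem iso_pow_norm (T : E ≃ₗᵢ[ℝ] E) (j : ℕ) (x : E) :
    ‖((T.toContinuousLinearEquiv : E →L[ℝ] E) ^ j) x‖ ≤ ‖x‖ := by
  induction j with
  | zero => simp
  | succ j ih =>
    rw [pow_succ', mul_apply_eq_comp]
    refine le_trans (le_of_eq ?_) ih
    exact T.norm_map _

/-- `‖Q‖ ≤ 2 / k + k ‖Q ^ 2‖` if `1 + Q` is an isometry -/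
theorem dif_sq (T : E ≃ₗᵢ[ℝ] E) (k : ℕ) : (k : ℝ) * ‖dif T‖ ≤ 2 + (k : ℝ) ^ 2 * ‖dif T * dif T‖ := by
  have key := dif_pow T
  set S : E →L[ℝ] E := (T.toContinuousLinearEquiv : E →L[ℝ] E) with hS
  have h1 := key k
  have h2 : ‖S ^ k - 1‖ ≤ 2 := by
    refine ContinuousLinearMap.opNorm_le_bound _ zero_le_two fun x => ?_
    have h3 := iso_pow_norm T k x
    calc ‖(S ^ k - 1) x‖ ≤ ‖(S ^ k) x‖ + ‖x‖ := norm_sub_le _ _
      _ ≤ 2 * ‖x‖ := by linarith
  have h3 : ‖(k : ℝ) • dif T‖ ≤ ‖S ^ k - 1‖ + ‖S ^ k - 1 - (k : ℝ) • dif T‖ := by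
    have := norm_sub_le (S ^ k - 1) (S ^ k - 1 - (k : ℝ) • dif T)
    rwa [_root_.sub_sub_cancel] at this
  rw [norm_smul, Real.norm_natCast] at h3
  linarith

/-- pointwise convergence of Lipschitz maps is uniform on compact sets -/
theorem unif_small {K : Set E} (hK : IsCompact K) {h : ℕ → E →L[ℝ] E} (hb : ∀ n x, ‖h n x‖ ≤ 2 * ‖x‖)
    (hp : ∀ x, Tendsto (fun n => h n x) atTop (𝓝 0)) {ε : ℝ} (hε : 0 < ε) :
    ∀ᶠ n in atTop, ∀ y ∈ K, ‖h n y‖ ≤ ε := by
  obtain ⟨t, -, ht, htc⟩ := hK.finite_cover_balls (e := ε / 4) (by positivity)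
  have h1 : ∀ᶠ n in atTop, ∀ x ∈ t, ‖h n x‖ ≤ ε / 2 := by
    rw [Set.Finite.eventually_all ht] 
    intro x hx
    have h2 := (hp x).norm
    rw [norm_zero] at h2
    exact (h2.eventually (gt_mem_nhds (half_pos hε))).mono fun n hn => hn.le
  filter_upwards [h1] with n hn y hy
  obtain ⟨x, hx, hxy⟩ := Set.mem_iUnion₂.1 (htc hy)
  rw [Metric.mem_ball, dist_eq_norm] at hxy
  have e : h n y = h n x + h n (y - x) := by rw [map_sub]; abel
  rw [e]
  refine (norm_add_le _ _).trans ?_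
  have h3 := hb n (y - x)
  have h4 := hn x hx
  linarith

/-- **Norm convergence of conjugates.** -/
theorem conj_conv (T : E ≃ₗᵢ[ℝ] E) (hT : IsCompactOperator (dif T)) (g : ℕ → E ≃ₗᵢ[ℝ] E)
    (hg : ∀ x, Tendsto (fun n => g n x) atTop (𝓝 x)) {ε : ℝ} (hε : 0 < ε) :
    ∀ᶠ n in atTop, ‖dif (g n * T * (g n)⁻¹ * T⁻¹)‖ ≤ ε := by
  -- pointwise convergence
  have hdg : ∀ x, Tendsto (fun n => dif (g n) x) atTop (𝓝 0) := fun x => by
    have h1 := (hg x).sub_const x
    rw [sub_self] at h1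
    exact h1
  have hgi : ∀ x, Tendsto (fun n => (g n).symm x - x) atTop (𝓝 0) := fun x => by
    refine squeeze_zero_norm (fun n => ?_) (tendsto_zero_iff_norm_tendsto_zero.1 (hdg x))
    rw [dif_apply, ← (g n).norm_map, map_sub, (g n).apply_symm_apply, norm_sub_rev]
  set Q : ℕ → E →L[ℝ] E := fun n => dif (g n * T * (g n)⁻¹ * T⁻¹) with hQ
  have hQx : ∀ n x, Q n x = dif (g n) (dif T ((g n).symm (T.symm x))) +
      dif T ((g n).symm (T.symm x) - T.symm x) := by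
    intro n x
    have h1 : Q n x = g n (T ((g n).symm (T.symm x))) - x := rfl
    rw [h1]
    simp only [dif_apply, map_sub, T.apply_symm_apply, (g n).apply_symm_apply]
    abel
  have hQb : ∀ n x, ‖Q n x‖ ≤ 2 * ‖x‖ := fun n x => dif_norm_le _ x
  have hQp : ∀ x, Tendsto (fun n => Q n x) atTop (𝓝 0) := by
    intro x
    refine squeeze_zero_norm (a := fun n => ‖dif (g n) x‖ + 2 * ‖(g n).symm (T.symm x) - T.symm x‖)
      (fun n => ?_) ?_
    · have e : Q n x = g n (T ((g n).symm (T.symm x) - T.symm x)) + dif (g n) x := by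
        have h1 : Q n x = g n (T ((g n).symm (T.symm x))) - x := rfl
        rw [h1, dif_apply]
        simp only [map_sub, T.apply_symm_apply]
        abel
      rw [e]
      refine (norm_add_le _ _).trans ?_
      rw [(g n).norm_map, T.norm_map]
      linarith [norm_nonneg ((g n).symm (T.symm x) - T.symm x)]
    · have h1 := (hdg x).norm.add ((hgi (T.symm x)).norm.const_mul 2)
      simpa using h1
  obtain ⟨k, hk⟩ := exists_nat_ge (4 / ε + 1)
  have hk0 : (0 : ℝ) < k := lt_of_lt_of_le (by positivity) hk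
  -- the compact set
  obtain ⟨K, hK, hK'⟩ := hT.image_closedBall_subset_compact 2
  set η : ℝ := ε / (8 * k) with hη
  have hη0 : 0 < η := by positivity
  have h1 := unif_small hK (fun n x => dif_norm_le (g n) x) hdg (ε := η) hη0
  have h2 := unif_small hK hQb hQp (ε := η) hη0
  filter_upwards [h1, h2] with n hn1 hn2
  have hsq : ‖Q n * Q n‖ ≤ 3 * η := by
    refine ContinuousLinearMap.opNorm_le_bound' _ (by positivity) fun x hx => ?_
    have hx0 : 0 < ‖x‖ := lt_of_le_of_ne (norm_nonneg _) (Ne.symm hx)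
    -- normalise
    have hun : ∀ u : E, ‖u‖ ≤ 1 → ‖Q n (Q n u)‖ ≤ 3 * η := by
      intro u hu
      rw [hQx n u, map_add]
      refine (norm_add_le _ _).trans ?_
      have h3 : ‖dif (g n) (dif T ((g n).symm (T.symm u)))‖ ≤ η := by
        refine hn1 _ (hK' ⟨_, ?_, rfl⟩)
        rw [mem_closedBall_zero_iff, (g n).symm.norm_map, T.symm.norm_map]
        linarith
      have h4 : ‖Q n (dif T ((g n).symm (T.symm u) - T.symm u))‖ ≤ η := by
        refine hn2 _ (hK' ⟨_, ?_, rfl⟩)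
        rw [mem_closedBall_zero_iff]
        refine (norm_sub_le _ _).trans ?_
        rw [(g n).symm.norm_map, T.symm.norm_map]
        linarith
      have h5 := hQb n (dif (g n) (dif T ((g n).symm (T.symm u))))
      linarith
    have h6 := hun ((‖x‖⁻¹ : ℝ) • x) (by
      rw [norm_smul, norm_inv, norm_norm, inv_mul_cancel₀ hx0.ne'])
    rw [map_smul, map_smul, norm_smul, norm_inv, norm_norm, inv_mul_le_iff₀ hx0] at h6
    show ‖Q n (Q n x)‖ ≤ _
    linarith
  have h7 := dif_sq (g n * T * (g n)⁻¹ * T⁻¹) k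
  have h8 : (k : ℝ) * ‖Q n‖ ≤ 2 + (k : ℝ) ^ 2 * (3 * η) :=
    h7.trans (by
      have := mul_le_mul_of_nonneg_left hsq (sq_nonneg (k : ℝ))
      linarith)
  have h9 : (k : ℝ) ^ 2 * (3 * η) = 3 / 8 * (k * ε) := by
    rw [hη]
    field_simp
  have h10 : 4 ≤ k * ε := by
    have h11 : 4 / ε ≤ k := by linarith
    rwa [div_le_iff₀ hε] at h11
  rw [h9] at h8
  have h12 : (k : ℝ) * ‖Q n‖ ≤ k * ε := by linarith
  exact le_of_mul_le_mul_left h12 hk0

/-- **Small compact perturbations.** -/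
theorem exists_small [CompleteSpace E] [TopologicalSpace.SeparableSpace E] (hE : ¬ FiniteDimensional ℝ E)
    (htr : ∀ x y : E, ‖x‖ = 1 → ‖y‖ = 1 → ∃ T : E ≃ₗᵢ[ℝ] E, T x = y)
    (T : E ≃ₗᵢ[ℝ] E) (hT : IsCompactOperator (dif T)) (hT0 : dif T ≠ 0) {ε : ℝ} (hε : 0 < ε) :
    ∃ S : E ≃ₗᵢ[ℝ] E, dif S ≠ 0 ∧ IsCompactOperator (dif S) ∧ ‖dif S‖ ≤ ε := by
  have htr' : ∀ x y : E, ‖x‖ = 1 → ‖y‖ = 1 → ∃ T ∈ (⊤ : Subgroup (E ≃ₗᵢ[ℝ] E)), T x = y := by
    intro x y hx hy
    obtain ⟨S, hS⟩ := htr x y hx hy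
    exact ⟨S, Subgroup.mem_top S, hS⟩
  have hAT : AT (⊤ : Subgroup (E ≃ₗᵢ[ℝ] E)) := by
    intro x y hx hy ε hε
    obtain ⟨S, hS, hSx⟩ := htr' x y hx hy
    exact ⟨S, hS, by rw [hSx, sub_self, norm_zero]; exact hε⟩
  have hTD : op T ∉ DD (⊤ : Subgroup (E ≃ₗᵢ[ℝ] E)) := by
    intro h
    have h1 : dif T ∈ DD (⊤ : Subgroup (E ≃ₗᵢ[ℝ] E)) := sub_mem h (one_mem _)
    have h2 := (core_DD hE hAT).2 _ h1
    apply hT0
    rw [← norm_eq_zero]
    refine le_antisymm (le_of_forall_pos_le_add fun η hη => ?_) (norm_nonneg _)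
    obtain ⟨z, hz1, hz2⟩ := compact_small hE hT hη
    rw [h2 z, hz1, mul_one] at hz2
    linarith
  have hex : ∀ n : ℕ, ∃ g : E ≃ₗᵢ[ℝ] E, (∀ i : Fin (n + 1),
      ‖g (TopologicalSpace.denseSeq E i) - TopologicalSpace.denseSeq E i‖ ≤ 1 / ((n : ℝ) + 1)) ∧
      g * T * g⁻¹ ≠ T := by
    intro n
    by_contra hcon
    push Not at hcon
    apply hTD
    refine loc_single hE htr' T (fun i : Fin (n + 1) => TopologicalSpace.denseSeq E i)
      (r0 := 1 / ((n : ℝ) + 1)) (by positivity) fun g _ hgi => ?_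
    rw [hcon g hgi]
  choose g hg1 hg2 using hex
  have hg : ∀ x, Tendsto (fun n => g n x) atTop (𝓝 x) := by
    intro x
    rw [Metric.tendsto_atTop]
    intro δ hδ
    obtain ⟨m, hm⟩ := (TopologicalSpace.denseRange_denseSeq E).exists_dist_lt x (by positivity : 0 < δ / 4)
    obtain ⟨N, hN⟩ := exists_nat_gt (4 / δ)
    refine ⟨max N m, fun n hn => ?_⟩
    have h1 := hg1 n ⟨m, by have := le_trans (le_max_right _ _) hn; omega⟩
    have h2 : 1 / ((n : ℝ) + 1) ≤ δ / 4 := by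
      rw [div_le_div_iff₀ (by positivity) (by positivity)]
      have h3 : (N : ℝ) ≤ n := by exact_mod_cast le_trans (le_max_left _ _) hn
      rw [div_lt_iff₀ hδ] at hN
      nlinarith
    rw [dist_eq_norm] at hm ⊢
    have e : g n x - x = g n (x - TopologicalSpace.denseSeq E m) +
        (g n (TopologicalSpace.denseSeq E m) - TopologicalSpace.denseSeq E m) -
        (x - TopologicalSpace.denseSeq E m) := by
      rw [map_sub]; abel
    rw [e]
    have h4 := norm_sub_le (g n (x - TopologicalSpace.denseSeq E m) +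
        (g n (TopologicalSpace.denseSeq E m) - TopologicalSpace.denseSeq E m))
        (x - TopologicalSpace.denseSeq E m)
    have h5 := norm_add_le (g n (x - TopologicalSpace.denseSeq E m))
        (g n (TopologicalSpace.denseSeq E m) - TopologicalSpace.denseSeq E m)
    rw [(g n).norm_map] at h5
    have h6 : ‖g n (TopologicalSpace.denseSeq E m) - TopologicalSpace.denseSeq E m‖ ≤ 1 / ((n : ℝ) + 1) := h1
    linarith
  obtain ⟨n, hn⟩ := (conj_conv T hT g hg hε).exists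
  refine ⟨g n * T * (g n)⁻¹ * T⁻¹, ?_, ?_, hn⟩
  · intro h0
    apply hg2 n
    have h1 : g n * T * (g n)⁻¹ * T⁻¹ = 1 := by
      ext x
      have h2 := congrArg (fun u : E →L[ℝ] E => u x) h0
      exact sub_eq_zero.1 h2
    exact mul_inv_eq_one.1 h1
  · -- compactness
    have e : dif (g n * T * (g n)⁻¹ * T⁻¹) =
        (op (g n) * dif T * op ((g n)⁻¹ * T⁻¹)) - dif T * op (T⁻¹) := by
      ext x
      show g n (T ((g n).symm (T.symm x))) - x =
        g n (T ((g n).symm (T.symm x)) - (g n).symm (T.symm x)) - (T (T.symm x) - T.symm x)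
      rw [map_sub, (g n).apply_symm_apply, T.apply_symm_apply]
      abel
    rw [e]
    exact ((hT.clm_comp (op (g n))).comp_clm (op ((g n)⁻¹ * T⁻¹))).sub (hT.comp_clm (op T⁻¹))

end Pool.Agent.W5h44.BMC
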