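import Pool.Agent.W5h44.BMC.Liou

/-!
# A theorem of Gelfand

A doubly power bounded operator `T` with `T - 1` quasinilpotent is `1`.
-/

set_option autoImplicit false

namespace Pool.Agent.W5h44.BMC

open Filter Topology Complex Bornology

/-- the binomial coefficients `z (z - 1) ... (z - k + 1) / k!` -/
noncomputable def bn (z : ℂ) : ℕ → ℂ
  | 0 => 1
  | k + 1 => bn z k * (z - k) / (k + 1)

theorem bn_pascal (z : ℂ) (k : ℕ) : bn (z + 1) (k + 1) = bn z (k + 1) + bn z k := by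
  have key : ∀ k : ℕ, (k + 1) * bn (z + 1) (k + 1) = (z + 1) * bn z k := by
    intro k
    induction k with
    | zero => simp [bn]
    | succ k ih =>
      have h1 : bn (z + 1) (k + 1 + 1) = bn (z + 1) (k + 1) * (z + 1 - (k + 1 : ℕ)) / ((k + 1 : ℕ) + 1) := rfl
      have h2 : bn z (k + 1) = bn z k * (z - k) / (k + 1) := rfl
      have hk1 : ((k : ℂ) + 1) ≠ 0 := by exact_mod_cast Nat.succ_ne_zero k
      have hk2 : (((k + 1 : ℕ) : ℂ) + 1) ≠ 0 := by exact_mod_cast Nat.succ_ne_zero (k + 1)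
      have h3 : bn (z + 1) (k + 1) = (z + 1) * bn z k / (k + 1) := by
        rw [eq_div_iff hk1, mul_comm]
        exact ih
      rw [h1, h2, h3]
      push_cast at hk2 ⊢
      field_simp
      ring
  have hk1 : ((k : ℂ) + 1) ≠ 0 := by exact_mod_cast Nat.succ_ne_zero k
  have h3 : bn (z + 1) (k + 1) = (z + 1) * bn z k / (k + 1) := by
    rw [eq_div_iff hk1, mul_comm]
    exact key k
  have h2 : bn z (k + 1) = bn z k * (z - k) / (k + 1) := rfl
  rw [h3, h2]
  field_simp
  ring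

theorem bn_zero (k : ℕ) : bn 0 (k + 1) = 0 := by
  induction k with
  | zero => simp [bn]
  | succ k ih =>
    show bn 0 (k + 1) * _ / _ = 0
    rw [ih]
    simp

theorem bn_le (z : ℂ) (p : ℕ) (hz : ‖z‖ ≤ p + 1) (k : ℕ) : ‖bn z k‖ ≤ ((k + p).choose p : ℝ) := by
  induction k with
  | zero => simp [bn]
  | succ k ih =>
    show ‖bn z k * (z - k) / (k + 1)‖ ≤ _
    have h1 : ‖(k : ℂ) + 1‖ = (k : ℝ) + 1 := by
      have : ((k : ℂ) + 1) = ((k + 1 : ℕ) : ℂ) := by push_cast; rfl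
      rw [this, Complex.norm_natCast]
      push_cast
      rfl
    rw [norm_div, norm_mul, h1, div_le_iff₀ (by positivity)]
    have h2 : ‖z - k‖ ≤ p + 1 + k := by
      refine (norm_sub_le _ _).trans ?_
      rw [Complex.norm_natCast]
      linarith
    have h3 : ((k + 1 + p).choose p : ℝ) * (k + 1) = ((k + p).choose p : ℝ) * (p + 1 + k) := by
      have h4 := Nat.choose_mul_succ_eq (k + p) p
      have h5 : k + p + 1 - p = k + 1 := by omega
      rw [h5] at h4
      have h6 : k + 1 + p = k + p + 1 := by omega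
      rw [h6]
      have h7 : (((k + p).choose p * (k + p + 1) : ℕ) : ℝ) = (((k + p + 1).choose p * (k + 1) : ℕ) : ℝ) := by
        rw [h4]
      push_cast at h7
      linarith
    rw [h3]
    exact mul_le_mul ih h2 (norm_nonneg _) (by positivity)

/-- Newton series -/
noncomputable def nw (c : ℕ → ℝ) (z : ℂ) : ℂ := ∑' k : ℕ, (c k : ℂ) * bn z k

theorem nw_term_le {c : ℕ → ℝ} {C ε : ℝ} (hC : ∀ k, |c k| ≤ C * ε ^ k) (hε : 0 ≤ ε) (z : ℂ) (p : ℕ)
    (hz : ‖z‖ ≤ p + 1) (k : ℕ) : ‖(c k : ℂ) * bn z k‖ ≤ C * (((k + p).choose p : ℝ) * ε ^ k) := by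
  have hC0 : 0 ≤ C := by
    have := (abs_nonneg _).trans (hC 0)
    simpa using this
  rw [norm_mul, Complex.norm_real, Real.norm_eq_abs]
  calc |c k| * ‖bn z k‖ ≤ (C * ε ^ k) * ((k + p).choose p : ℝ) :=
        mul_le_mul (hC k) (bn_le z p hz k) (norm_nonneg _) (by positivity)
    _ = C * (((k + p).choose p : ℝ) * ε ^ k) := by ring

theorem hasSum_nw (C : ℝ) {ε : ℝ} (hε : 0 ≤ ε) (hε1 : ε < 1) (p : ℕ) :
    HasSum (fun k : ℕ => C * (((k + p).choose p : ℝ) * ε ^ k)) (C * (1 / (1 - ε) ^ (p + 1))) := by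
  have h := hasSum_choose_mul_geometric_of_norm_lt_one (𝕜 := ℝ) p (r := ε) (by
    rwa [Real.norm_of_nonneg hε])
  exact h.mul_left C

theorem bn_diff (k : ℕ) : Differentiable ℂ fun z => bn z k := by
  induction k with
  | zero => exact differentiable_const _
  | succ k ih =>
    show Differentiable ℂ fun z => bn z k * (z - k) / (k + 1)
    exact (ih.mul (differentiable_id.sub_const _)).div_const _

theorem nw_le {c : ℕ → ℝ} {C ε : ℝ} (hC : ∀ k, |c k| ≤ C * ε ^ k) (hε : 0 ≤ ε) (hε1 : ε < 1) (z : ℂ)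
    (p : ℕ) (hz : ‖z‖ ≤ p + 1) : ‖nw c z‖ ≤ C * (1 / (1 - ε) ^ (p + 1)) :=
  tsum_of_norm_bounded (hasSum_nw C hε hε1 p) fun k => nw_term_le hC hε z p hz k

theorem nw_diff {c : ℕ → ℝ} (hc : ∀ ε : ℝ, 0 < ε → ∃ C : ℝ, ∀ k, |c k| ≤ C * ε ^ k) :
    Differentiable ℂ (nw c) := by
  intro z
  obtain ⟨C, hC⟩ := hc (1 / 2) (by norm_num)
  obtain ⟨p, hp⟩ := exists_nat_ge ‖z‖
  have h1 : DifferentiableOn ℂ (nw c) (Metric.ball 0 (p + 1)) := by
    refine Complex.differentiableOn_tsum_of_summable_norm (u := fun k =>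
      C * (((k + p).choose p : ℝ) * (1 / 2) ^ k))
      (hasSum_nw C (by norm_num) (by norm_num) p).summable (fun k => ?_)
      Metric.isOpen_ball fun k w hw => ?_
    · exact (Differentiable.const_mul (bn_diff k) _).differentiableOn
    · exact nw_term_le hC (by norm_num) w p (by
        rw [mem_ball_zero_iff] at hw
        exact hw.le) k
  exact h1.differentiableAt (Metric.isOpen_ball.mem_nhds (by
    rw [mem_ball_zero_iff]
    linarith))

theorem nw_type {c : ℕ → ℝ} (hc : ∀ ε : ℝ, 0 < ε → ∃ C : ℝ, ∀ k, |c k| ≤ C * ε ^ k) {η : ℝ} (hη : 0 < η) :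
    ∃ C : ℝ, ∀ z, ‖nw c z‖ ≤ C * Real.exp (η * ‖z‖) := by
  set ε : ℝ := 1 - Real.exp (-η) with hε
  have h1 : Real.exp (-η) < 1 := by
    rw [Real.exp_lt_one_iff]
    linarith
  obtain ⟨C, hC⟩ := hc ε (by rw [hε]; linarith)
  have hC0 : 0 ≤ C := by
    have := (abs_nonneg _).trans (hC 0)
    simpa using this
  refine ⟨C * Real.exp (2 * η), fun z => ?_⟩
  set p := ⌊‖z‖⌋₊ with hp
  have hp1 : ‖z‖ ≤ p + 1 := (Nat.lt_floor_add_one _).le
  have hp2 : (p : ℝ) ≤ ‖z‖ := Nat.floor_le (norm_nonneg _)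
  refine (nw_le hC (by rw [hε]; linarith) (by rw [hε]; linarith [Real.exp_pos (-η)]) z p hp1).trans ?_
  rw [mul_assoc, ← Real.exp_add]
  refine mul_le_mul_of_nonneg_left ?_ hC0
  have h2 : 1 - ε = Real.exp (-η) := by rw [hε]; ring
  rw [h2, ← Real.exp_nat_mul, one_div, ← Real.exp_neg]
  refine Real.exp_le_exp.2 ?_
  push_cast
  nlinarith

variable {Y : Type*} [NormedAddCommGroup Y] [NormedSpace ℝ Y]

/-- **Gelfand's theorem** for a real Banach space -/
theorem gelfand_disc (T S : Y →L[ℝ] Y) (hTS : T * S = 1) (hT : ‖T‖ ≤ 1) (hS : ‖S‖ ≤ 1)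
    (hg : ∀ ε : ℝ, 0 < ε → ∃ C : ℝ, ∀ k : ℕ, ‖(T - 1) ^ k‖ ≤ C * ε ^ k) : T = 1 := by
  have hφ : ∀ (φ : Y →L[ℝ] ℝ) (y : Y), φ (T y) = φ y := by
    intro φ y
    set N := T - 1 with hN
    set c : Y → ℕ → ℝ := fun y k => φ ((N ^ k) y) with hc
    have hcb : ∀ (y : Y) (ε : ℝ), 0 < ε → ∃ C : ℝ, ∀ k, |c y k| ≤ C * ε ^ k := by
      intro y ε hε
      obtain ⟨C, hC⟩ := hg ε hε
      refine ⟨‖φ‖ * (C * ‖y‖), fun k => ?_⟩
      rw [hc, ← Real.norm_eq_abs]
      refine (φ.le_opNorm _).trans ?_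
      rw [mul_assoc]
      refine mul_le_mul_of_nonneg_left ?_ (norm_nonneg _)
      calc ‖(N ^ k) y‖ ≤ (C * ε ^ k) * ‖y‖ := (N ^ k).le_of_opNorm_le (hC k) y
        _ = C * ‖y‖ * ε ^ k := by ring
    have hsum : ∀ (y : Y) (z : ℂ), Summable fun k => (c y k : ℂ) * bn z k := by
      intro y z
      obtain ⟨C, hC⟩ := hcb y (1 / 2) (by norm_num)
      obtain ⟨p, hp⟩ := exists_nat_ge ‖z‖
      exact Summable.of_norm_bounded (hasSum_nw C (by norm_num) (by norm_num) p).summable fun k =>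
        nw_term_le hC (by norm_num) z p (by linarith) k
    have hshift : ∀ (y : Y) (z : ℂ), nw (c y) (z + 1) = nw (c (T y)) z := by
      intro y z
      unfold nw
      rw [(hsum y (z + 1)).tsum_eq_zero_add, (hsum (T y) z).tsum_eq_zero_add]
      have e1 : ∀ k, (c y (k + 1) : ℂ) * bn (z + 1) (k + 1) =
          (c y (k + 1) : ℂ) * bn z (k + 1) + (c y (k + 1) : ℂ) * bn z k := by
        intro k
        rw [bn_pascal, mul_add]
      have e2 : ∀ k, c (T y) k = c y k + c y (k + 1) := by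
        intro k
        rw [hc]
        simp only
        have h1 : T y = y + N y := by
          show T y = y + (T y - y)
          abel
        rw [h1, map_add, map_add, pow_succ]
        rfl
      have hs1 : Summable fun k => (c y (k + 1) : ℂ) * bn z (k + 1) :=
        (summable_nat_add_iff 1).2 (hsum y z)
      have hs2' : Summable fun k => (c (T y) k : ℂ) * bn z k - (c y k : ℂ) * bn z k :=
        (hsum (T y) z).sub (hsum y z)
      have hs2 : Summable fun k => (c y (k + 1) : ℂ) * bn z k := by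
        refine hs2'.congr fun k => ?_
        rw [e2]
        push_cast
        ring
      simp only [e1]
      rw [hs1.tsum_add hs2]
      have hs3 : Summable fun k => (c (T y) (k + 1) : ℂ) * bn z (k + 1) :=
        (summable_nat_add_iff 1).2 (hsum (T y) z)
      have e3 : ∑' k, (c y (k + 1) : ℂ) * bn z k = ∑' k, ((c (T y) k : ℂ) * bn z k - (c y k : ℂ) * bn z k) := by
        refine tsum_congr fun k => ?_
        rw [e2]
        push_cast
        ring
      rw [e3, (hsum (T y) z).tsum_sub (hsum y z), (hsum (T y) z).tsum_eq_zero_add,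
        (hsum y z).tsum_eq_zero_add]
      have b0 : ∀ w : ℂ, bn w 0 = 1 := fun w => rfl
      rw [b0, b0]
      ring
    -- boundedness on the real line
    obtain ⟨C₁, hC₁⟩ := hg (1 / 2) (by norm_num)
    have hC₁0 : 0 ≤ C₁ := by
      have := (norm_nonneg _).trans (hC₁ 0)
      simpa using this
    have hloc : ∀ (y : Y) (z : ℂ), ‖z‖ ≤ 1 → ‖nw (c y) z‖ ≤ (‖φ‖ * (C₁ * ‖y‖)) * 2 := by
      intro y z hz
      have h1 := nw_le (c := c y) (C := ‖φ‖ * (C₁ * ‖y‖)) (ε := 1 / 2) (fun k => by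
        rw [hc, ← Real.norm_eq_abs]
        refine (φ.le_opNorm _).trans ?_
        rw [mul_assoc]
        refine mul_le_mul_of_nonneg_left ?_ (norm_nonneg _)
        calc ‖(N ^ k) y‖ ≤ (C₁ * (1 / 2) ^ k) * ‖y‖ := (N ^ k).le_of_opNorm_le (hC₁ k) y
          _ = C₁ * ‖y‖ * (1 / 2) ^ k := by ring) (by norm_num) (by norm_num) z 0 (by simpa using hz)
      refine h1.trans (le_of_eq ?_)
      norm_num
    have hnat : ∀ (n : ℕ) (y : Y) (z : ℂ), ‖z‖ ≤ 1 → ‖nw (c y) (z + n)‖ ≤ (‖φ‖ * (C₁ * ‖y‖)) * 2 := by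
      intro n
      induction n with
      | zero =>
        intro y z hz
        simpa using hloc y z hz
      | succ n ih =>
        intro y z hz
        have e : z + ((n + 1 : ℕ) : ℂ) = (z + n) + 1 := by push_cast; ring
        rw [e, hshift]
        refine (ih (T y) z hz).trans ?_
        have h1 : ‖T y‖ ≤ 1 * ‖y‖ := T.le_of_opNorm_le hT y
        rw [one_mul] at h1
        gcongr
    have hneg : ∀ (n : ℕ) (y : Y) (z : ℂ), ‖z‖ ≤ 1 → ‖nw (c y) (z - n)‖ ≤ (‖φ‖ * (C₁ * ‖y‖)) * 2 := by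
      intro n
      induction n with
      | zero =>
        intro y z hz
        simpa using hloc y z hz
      | succ n ih =>
        intro y z hz
        have e : z - ((n + 1 : ℕ) : ℂ) + 1 = z - n := by push_cast; ring
        have h2 := hshift (S y) (z - ((n + 1 : ℕ) : ℂ))
        have h3 : T (S y) = y := congrArg (fun u : Y →L[ℝ] Y => u y) hTS
        rw [e, h3] at h2
        rw [← h2]
        refine (ih (S y) z hz).trans ?_
        have h1 : ‖S y‖ ≤ 1 * ‖y‖ := S.le_of_opNorm_le hS y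
        rw [one_mul] at h1
        gcongr
    have hreal : ∀ t : ℝ, ‖nw (c y) t‖ ≤ (‖φ‖ * (C₁ * ‖y‖)) * 2 := by
      intro t
      rcases le_total 0 t with h | h
      · have h1 : (t : ℂ) = ((t - ⌊t⌋₊ : ℝ) : ℂ) + ⌊t⌋₊ := by push_cast; ring
        rw [h1]
        refine hnat _ y _ ?_
        rw [Complex.norm_real, Real.norm_eq_abs, abs_le]
        have h2 := Nat.floor_le h
        have h3 := Nat.lt_floor_add_one t
        constructor <;> linarith
      · have h1 : (t : ℂ) = ((t + ⌊-t⌋₊ : ℝ) : ℂ) - ⌊-t⌋₊ := by push_cast; ring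
        rw [h1]
        refine hneg _ y _ ?_
        rw [Complex.norm_real, Real.norm_eq_abs, abs_le]
        have h2 := Nat.floor_le (neg_nonneg.2 h)
        have h3 := Nat.lt_floor_add_one (-t)
        constructor <;> linarith
    have hconst := ent0_const (nw_diff (hcb y)) (fun η hη => nw_type (hcb y) hη) hreal 1 0
    have h0 : ∀ y, nw (c y) 0 = ((φ y : ℝ) : ℂ) := by
      intro y
      unfold nw
      rw [(hsum y 0).tsum_eq_zero_add]
      have h1 : ∀ k, (c y (k + 1) : ℂ) * bn 0 (k + 1) = 0 := fun k => by rw [bn_zero, mul_zero]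
      simp only [h1, tsum_zero, add_zero]
      show ((φ y : ℝ) : ℂ) * 1 = _
      rw [mul_one]
    have h1 := hshift y 0
    rw [zero_add, hconst, h0, h0] at h1
    exact_mod_cast h1.symm
  ext y
  show T y = y
  by_contra hne
  obtain ⟨g, -, hg2⟩ := exists_dual_vector ℝ (T y - y) (norm_ne_zero_iff.2 (sub_ne_zero.2 hne))
  have h1 := hφ g y
  rw [map_sub, h1, sub_self] at hg2
  apply sub_ne_zero.2 hne
  have h2 : ‖T y - y‖ = 0 := by exact_mod_cast hg2.symm
  exact norm_eq_zero.1 h2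

end Pool.Agent.W5h44.BMC
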