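import Pool.Agent.W5h44.BMC.Disc
import Pool.Agent.W5h44.BMC.Conv

/-!
# Isometries which are Riesz perturbations of the identity
-/

set_option autoImplicit false

namespace Pool.Agent.W5h44.BMC

open Filter Topology

/-- `(T - 1) ^ n` is as close as `ε ^ n` to a compact operator, for some `n ≥ 1` and every `ε` -/
def EssQN {E : Type*} [NormedAddCommGroup E] [NormedSpace ℝ E] (N : E →L[ℝ] E) : Prop :=
  ∀ ε : ℝ, 0 < ε → ∃ n : ℕ, 0 < n ∧ ∃ K : E →L[ℝ] E, IsCompactOperator K ∧ ‖N ^ n - K‖ ≤ ε ^ n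

variable {E : Type*} [NormedAddCommGroup E] [NormedSpace ℝ E] [CompleteSpace E]

/-- the compact operators -/
def Kc (E : Type*) [NormedAddCommGroup E] [NormedSpace ℝ E] : Submodule ℝ (E →L[ℝ] E) where
  carrier := {a | IsCompactOperator a}
  add_mem' := fun ha hb => ha.add hb
  zero_mem' := isCompactOperator_zero
  smul_mem' := fun c _ ha => ha.smul c

instance : IsClosed (Kc E : Set (E →L[ℝ] E)) :=
  isClosed_setOfPred_isCompactOperator

/-- the Calkin space -/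
def Ck (E : Type*) [NormedAddCommGroup E] [NormedSpace ℝ E] : Type _ := (E →L[ℝ] E) ⧸ Kc E

noncomputable instance : NormedAddCommGroup (Ck E) :=
  inferInstanceAs (NormedAddCommGroup ((E →L[ℝ] E) ⧸ Kc E))

noncomputable instance : NormedSpace ℝ (Ck E) :=
  inferInstanceAs (NormedSpace ℝ ((E →L[ℝ] E) ⧸ Kc E))

/-- the class of an operator -/
noncomputable def ck : (E →L[ℝ] E) →ₗ[ℝ] Ck E := (Kc E).mkQ

theorem ck_surj (x : Ck E) : ∃ a, ck a = x := Submodule.Quotient.mk_surjective _ x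

theorem ck_zero {a : E →L[ℝ] E} : ck a = 0 ↔ IsCompactOperator a :=
  Submodule.Quotient.mk_eq_zero (Kc E)

theorem ck_norm_le (a : E →L[ℝ] E) : ‖ck a‖ ≤ ‖a‖ := Submodule.Quotient.norm_mk_le (Kc E) a

theorem ck_le (a c : E →L[ℝ] E) : ‖ck (a * c)‖ ≤ ‖a‖ * ‖ck c‖ := by
  refine le_of_forall_pos_le_add fun ε hε => ?_
  obtain ⟨m, hm, hmn⟩ : ∃ m, ck m = ck c ∧ ‖m‖ < ‖ck c‖ + ε / (‖a‖ + 1) :=
    Submodule.Quotient.norm_mk_lt (S := Kc E) (Submodule.Quotient.mk c)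
      (show 0 < ε / (‖a‖ + 1) by positivity)
  have h1 : ck (a * c) = ck (a * m) := by
    rw [← sub_eq_zero, ← map_sub, ck_zero] at hm ⊢
    rw [← mul_sub, ← neg_sub m c, mul_neg]
    exact (Kc E).neg_mem (IsCompactOperator.clm_comp hm a)
  rw [h1]
  refine (ck_norm_le _).trans ?_
  refine (norm_mul_le _ _).trans ?_
  calc ‖a‖ * ‖m‖ ≤ ‖a‖ * (‖ck c‖ + ε / (‖a‖ + 1)) := by gcongr
    _ = ‖a‖ * ‖ck c‖ + ‖a‖ / (‖a‖ + 1) * ε := by ring
    _ ≤ ‖a‖ * ‖ck c‖ + 1 * ε := by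
        gcongr
        rw [div_le_one (by positivity)]
        linarith
    _ = _ := by ring

/-- left multiplication in the Calkin space -/
noncomputable def lm (a : E →L[ℝ] E) : Ck E →L[ℝ] Ck E :=
  LinearMap.mkContinuous (show Ck E →ₗ[ℝ] Ck E from (Kc E).mapQ (Kc E) (LinearMap.mulLeft ℝ a)
    (fun _ hc => IsCompactOperator.clm_comp hc a)) ‖a‖ (by
    intro x
    obtain ⟨x, rfl⟩ := ck_surj x
    exact ck_le a x)

theorem lm_mk (a c : E →L[ℝ] E) : lm a (ck c) = ck (a * c) := rfl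

theorem lm_norm (a : E →L[ℝ] E) : ‖lm a‖ ≤ ‖a‖ := LinearMap.mkContinuous_norm_le _ (norm_nonneg _) _

theorem lm_sub (a c : E →L[ℝ] E) : lm (a - c) = lm a - lm c := by
  ext x
  obtain ⟨x, rfl⟩ := ck_surj x
  show lm (a - c) (ck x) = lm a (ck x) - lm c (ck x)
  rw [lm_mk, lm_mk, lm_mk, sub_mul, map_sub]

theorem lm_mul (a c : E →L[ℝ] E) : lm (a * c) = lm a * lm c := by
  ext x
  obtain ⟨x, rfl⟩ := ck_surj x
  show lm (a * c) (ck x) = lm a (lm c (ck x))
  rw [lm_mk, lm_mk, lm_mk, mul_assoc]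

theorem lm_one : lm (1 : E →L[ℝ] E) = 1 := by
  ext x
  obtain ⟨x, rfl⟩ := ck_surj x
  show lm 1 (ck x) = ck x
  rw [lm_mk, one_mul]

theorem lm_pow (a : E →L[ℝ] E) (n : ℕ) : lm (a ^ n) = lm a ^ n := by
  induction n with
  | zero => rw [pow_zero, pow_zero, lm_one]
  | succ n ih => rw [pow_succ, pow_succ, lm_mul, ih]

theorem lm_compact {a : E →L[ℝ] E} (ha : IsCompactOperator a) : lm a = 0 := by
  ext x
  obtain ⟨x, rfl⟩ := ck_surj x
  show lm a (ck x) = 0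
  rw [lm_mk, ck_zero]
  exact IsCompactOperator.comp_clm ha x

theorem lm_growth {N : E →L[ℝ] E} (hN : EssQN N) {ε : ℝ} (hε : 0 < ε) :
    ∃ C : ℝ, ∀ k : ℕ, ‖(lm N) ^ k‖ ≤ C * ε ^ k := by
  obtain ⟨n, hn, K, hK, hKn⟩ := hN ε hε
  have h1 : ‖(lm N) ^ n‖ ≤ ε ^ n := by
    rw [← lm_pow]
    have : lm (N ^ n) = lm (N ^ n - K) := by rw [lm_sub, lm_compact hK, sub_zero]
    rw [this]
    exact (lm_norm _).trans hKn
  set A : ℝ := ‖lm N‖ / ε + 1 with hA
  have hA1 : 1 ≤ A := by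
    rw [hA]
    have : 0 ≤ ‖lm N‖ / ε := by positivity
    linarith
  have h2 : ∀ r : ℕ, r ≤ n → ‖(lm N) ^ r‖ ≤ A ^ n * ε ^ r := by
    intro r hr
    have h3 : ‖lm N‖ ≤ A * ε := by
      rw [hA, add_mul, div_mul_cancel₀ _ hε.ne']
      linarith
    rcases Nat.eq_zero_or_pos r with h0 | h0
    · rw [h0, pow_zero, pow_zero, mul_one]
      exact ContinuousLinearMap.norm_id_le.trans (one_le_pow₀ hA1)
    · calc ‖(lm N) ^ r‖ ≤ ‖lm N‖ ^ r := norm_pow_le' _ h0
        _ ≤ (A * ε) ^ r := pow_le_pow_left₀ (norm_nonneg _) h3 r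
        _ = A ^ r * ε ^ r := mul_pow _ _ _
        _ ≤ A ^ n * ε ^ r := by
            refine mul_le_mul_of_nonneg_right (pow_le_pow_right₀ hA1 hr) (by positivity)
  refine ⟨A ^ n, fun k => ?_⟩
  have h3 : ∀ q : ℕ, ‖((lm N) ^ n) ^ q‖ ≤ (ε ^ n) ^ q := by
    intro q
    induction q with
    | zero =>
      rw [pow_zero, pow_zero]
      exact ContinuousLinearMap.norm_id_le
    | succ q ih =>
      rw [pow_succ, pow_succ]
      exact (norm_mul_le _ _).trans (mul_le_mul ih h1 (norm_nonneg _) (by positivity))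
  have h4 := Nat.div_add_mod k n
  have h5 : (lm N) ^ k = ((lm N) ^ n) ^ (k / n) * (lm N) ^ (k % n) := by
    rw [← pow_mul, ← pow_add, h4]
  have h6 : ε ^ k = (ε ^ n) ^ (k / n) * ε ^ (k % n) := by
    rw [← pow_mul, ← pow_add, h4]
  rw [h5, h6]
  refine (norm_mul_le _ _).trans ?_
  calc ‖((lm N) ^ n) ^ (k / n)‖ * ‖(lm N) ^ (k % n)‖ ≤ (ε ^ n) ^ (k / n) * (A ^ n * ε ^ (k % n)) :=
        mul_le_mul (h3 _) (h2 _ (Nat.mod_lt _ hn).le) (norm_nonneg _) (by positivity)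
    _ = A ^ n * ((ε ^ n) ^ (k / n) * ε ^ (k % n)) := by ring

/-- **An isometry which is a Riesz perturbation of the identity is a compact perturbation.** -/
theorem compact_of_essQN (T : E ≃ₗᵢ[ℝ] E) (hT : EssQN (dif T)) : IsCompactOperator (dif T) := by
  set A : E →L[ℝ] E := (T.toContinuousLinearEquiv : E →L[ℝ] E) with hA
  set B : E →L[ℝ] E := (T.symm.toContinuousLinearEquiv : E →L[ℝ] E) with hB
  have hAB : A * B = 1 := by
    ext x
    exact T.apply_symm_apply x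
  have h1 : lm A = 1 := by
    refine gelfand_disc (lm A) (lm B) (by rw [← lm_mul, hAB, lm_one]) ((lm_norm _).trans (opNorm_iso_le T))
      ((lm_norm _).trans (opNorm_iso_le T.symm)) fun ε hε => ?_
    have h2 : lm A - 1 = lm (dif T) := by
      rw [dif, lm_sub, lm_one]
    rw [h2]
    exact lm_growth hT hε
  have h2 : lm (dif T) (ck 1) = 0 := by
    rw [dif, lm_sub, lm_one]
    show lm A (ck 1) - ck 1 = 0
    rw [h1]
    exact sub_self _
  rwa [lm_mk, mul_one, ck_zero] at h2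

omit [CompleteSpace E] in
theorem essQN_of_compact {K : E →L[ℝ] E} (hK : IsCompactOperator K) : EssQN K := fun ε hε =>
  ⟨1, one_pos, K, hK, by rw [pow_one, sub_self, norm_zero, pow_one]; exact hε.le⟩

end Pool.Agent.W5h44.BMC
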