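import Pool.Agent.W5h44.BMC.Skew

/-!
# A local version of a theorem of Gelfand and Hille

If `exp (t D) y` is bounded for real `t` and `‖D ^ k y‖ ^ (1/k) → 0` then `D y = 0`.
-/

set_option autoImplicit false

namespace Pool.Agent.W5h44.BMC

open Filter Topology Complex Bornology

section scalar

variable {c : ℕ → ℝ}

/-- the entire function with the Taylor coefficients `c k / k!` -/
noncomputable def ent (c : ℕ → ℝ) (z : ℂ) : ℂ := ∑' k : ℕ, ((c k / k.factorial : ℝ) : ℂ) * z ^ k

theorem ent_term_le {C ε : ℝ} (hC : ∀ k, |c k| ≤ C * ε ^ k) (z : ℂ) (R : ℝ) (hR : ‖z‖ ≤ R) (hε : 0 ≤ ε)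
    (k : ℕ) : ‖((c k / k.factorial : ℝ) : ℂ) * z ^ k‖ ≤ C * ((ε * R) ^ k / k.factorial) := by
  have hC0 : 0 ≤ C := by
    have := (abs_nonneg _).trans (hC 0)
    simpa using this
  rw [norm_mul, norm_pow, Complex.norm_real, Real.norm_eq_abs, abs_div, Nat.abs_cast, div_mul_eq_mul_div,
    mul_pow, ← mul_div_assoc]
  refine div_le_div_of_nonneg_right ?_ (by positivity)
  calc |c k| * ‖z‖ ^ k ≤ (C * ε ^ k) * R ^ k :=
        mul_le_mul (hC k) (pow_le_pow_left₀ (norm_nonneg _) hR k) (by positivity) (by positivity)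
    _ = C * (ε ^ k * R ^ k) := by ring

theorem hasSum_exp_real (C x : ℝ) :
    HasSum (fun k : ℕ => C * (x ^ k / k.factorial)) (C * Real.exp x) := by
  have h := NormedSpace.expSeries_div_hasSum_exp (𝔸 := ℝ) x
  rw [← Real.exp_eq_exp_ℝ] at h
  exact h.mul_left C

theorem ent_diff {C : ℝ} (hC : ∀ k, |c k| ≤ C * 1 ^ k) : Differentiable ℂ (ent c) := by
  intro z
  have h1 : DifferentiableOn ℂ (ent c) (Metric.ball 0 (‖z‖ + 1)) := by
    refine Complex.differentiableOn_tsum_of_summable_norm (u := fun k =>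
      C * ((1 * (‖z‖ + 1)) ^ k / k.factorial)) (hasSum_exp_real C _).summable (fun k => ?_)
      Metric.isOpen_ball fun k w hw => ?_
    · exact (Differentiable.const_mul (differentiable_pow k) _).differentiableOn
    · exact ent_term_le hC w _ (by
        rw [mem_ball_zero_iff] at hw
        exact hw.le) zero_le_one k
  exact h1.differentiableAt (Metric.isOpen_ball.mem_nhds (by
    rw [mem_ball_zero_iff]
    linarith))

theorem ent_le {C ε : ℝ} (hC : ∀ k, |c k| ≤ C * ε ^ k) (hε : 0 ≤ ε) (z : ℂ) :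
    ‖ent c z‖ ≤ C * Real.exp (ε * ‖z‖) :=
  tsum_of_norm_bounded (hasSum_exp_real C (ε * ‖z‖)) fun k => ent_term_le hC z _ le_rfl hε k

end scalar

/-- the Phragmén-Lindelöf step -/
theorem ent0_half {f : ℂ → ℂ} {M : ℝ} (hdiff : Differentiable ℂ f)
    (hc : ∀ ε : ℝ, 0 < ε → ∃ C : ℝ, ∀ z, ‖f z‖ ≤ C * Real.exp (ε * ‖z‖))
    (hM : ∀ t : ℝ, ‖f t‖ ≤ M) (σ : ℂ) (hσ : σ = I ∨ σ = -I) (w : ℂ) (hw : 0 ≤ w.re) :
    ‖f (σ * w)‖ ≤ M := by
  have hσn : ‖σ‖ = 1 := by
    rcases hσ with h | h <;> rw [h] <;> simp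
  have key : ∀ ε : ℝ, 0 < ε → ‖f (σ * w)‖ ≤ M * Real.exp (ε * w.re) := by
    intro ε hε
    obtain ⟨C, hC⟩ := hc ε hε
    have hC0 : 0 ≤ C := by
      have := (norm_nonneg _).trans (hC 0)
      simpa using this
    set g : ℂ → ℂ := fun u => f (σ * u) * Complex.exp (-(ε * u)) with hg
    have hgd : Differentiable ℂ g := by
      refine (hdiff.comp (differentiable_id.const_mul σ)).mul ?_
      exact ((differentiable_id.const_mul (ε : ℂ)).neg).cexp
    have hgn : ∀ u : ℂ, ‖g u‖ ≤ C * Real.exp (ε * ‖u‖) * Real.exp (-(ε * u.re)) := by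
      intro u
      rw [hg]
      simp only
      rw [norm_mul, Complex.norm_exp]
      have e1 : (-((ε : ℂ) * u)).re = -(ε * u.re) := by simp
      rw [e1]
      refine mul_le_mul_of_nonneg_right ?_ (Real.exp_pos _).le
      have := hC (σ * u)
      rwa [norm_mul, hσn, one_mul] at this
    have h1 : ‖g w‖ ≤ M := by
      refine PhragmenLindelof.right_half_plane_of_bounded_on_real hgd.diffContOnCl ⟨1, by norm_num,
        2 * ε, ?_⟩ ?_ ?_ hw
      · refine Asymptotics.IsBigO.of_bound C ?_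
        refine Filter.Eventually.filter_mono inf_le_right ?_
        rw [eventually_principal]
        intro u hu
        rw [Set.mem_ofPred_eq] at hu
        rw [Real.rpow_one, Real.norm_eq_abs, Real.abs_exp]
        refine (hgn u).trans ?_
        rw [mul_assoc, ← Real.exp_add]
        refine mul_le_mul_of_nonneg_left (Real.exp_le_exp.2 ?_) hC0
        have h3 : 0 ≤ ε * u.re := by positivity
        have h4 : 0 ≤ ε * ‖u‖ := by positivity
        linarith
      · refine ⟨C, ?_⟩
        rw [eventually_map]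
        filter_upwards [eventually_ge_atTop 0] with x hx
        refine (hgn x).trans (le_of_eq ?_)
        rw [mul_assoc, ← Real.exp_add, Complex.norm_real, Real.norm_of_nonneg hx, Complex.ofReal_re,
          add_neg_cancel, Real.exp_zero, mul_one]
      · intro x
        rw [hg]
        simp only
        rw [norm_mul, Complex.norm_exp]
        have e1 : (-((ε : ℂ) * (x * I))).re = 0 := by simp
        rw [e1, Real.exp_zero, mul_one]
        rcases hσ with h | h
        · have e2 : σ * (x * I) = ((-x : ℝ) : ℂ) := by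
            rw [h]
            push_cast
            linear_combination (x : ℂ) * I_mul_I
          rw [e2]
          exact hM _
        · have e2 : σ * (x * I) = ((x : ℝ) : ℂ) := by
            rw [h]
            linear_combination (-(x : ℂ)) * I_mul_I
          rw [e2]
          exact hM _
    have h2 : ‖f (σ * w)‖ * Real.exp (-(ε * w.re)) ≤ M := by
      have e1 : ‖g w‖ = ‖f (σ * w)‖ * Real.exp (-(ε * w.re)) := by
        rw [hg]
        simp only
        rw [norm_mul, Complex.norm_exp]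
        congr 2
        simp
      rwa [e1] at h1
    have h3 := mul_le_mul_of_nonneg_right h2 (Real.exp_pos (ε * w.re)).le
    rwa [mul_assoc, ← Real.exp_add, neg_add_cancel, Real.exp_zero, mul_one] at h3
  have h1 : Tendsto (fun ε : ℝ => M * Real.exp (ε * w.re)) (𝓝[>] 0) (𝓝 (M * Real.exp (0 * w.re))) := by
    refine Tendsto.mono_left ?_ nhdsWithin_le_nhds
    exact ((Real.continuous_exp.comp (continuous_id.mul continuous_const)).tendsto 0).const_mul M
  rw [zero_mul, Real.exp_zero, mul_one] at h1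
  exact ge_of_tendsto h1 (by
    filter_upwards [self_mem_nhdsWithin] with ε hε
    exact key ε hε)

/-- an entire function of exponential type zero which is bounded on the real line is constant -/
theorem ent0_const {f : ℂ → ℂ} {M : ℝ} (hdiff : Differentiable ℂ f)
    (hc : ∀ ε : ℝ, 0 < ε → ∃ C : ℝ, ∀ z, ‖f z‖ ≤ C * Real.exp (ε * ‖z‖))
    (hM : ∀ t : ℝ, ‖f t‖ ≤ M) (z w : ℂ) : f z = f w := by
  refine hdiff.apply_eq_apply_of_bounded ?_ z w
  rw [isBounded_iff_forall_norm_le]
  refine ⟨M, ?_⟩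
  rintro _ ⟨u, rfl⟩
  rcases le_total 0 u.im with h | h
  · have e : u = I * (-(I * u)) := by linear_combination u * I_mul_I
    rw [e]
    exact ent0_half hdiff hc hM I (Or.inl rfl) _ (by simpa using h)
  · have e : u = (-I) * (I * u) := by linear_combination u * I_mul_I
    rw [e]
    exact ent0_half hdiff hc hM (-I) (Or.inr rfl) _ (by simpa using h)

theorem ent_const {c : ℕ → ℝ} {M : ℝ} (hc : ∀ ε : ℝ, 0 < ε → ∃ C : ℝ, ∀ k, |c k| ≤ C * ε ^ k)
    (hM : ∀ t : ℝ, ‖ent c t‖ ≤ M) (z w : ℂ) : ent c z = ent c w := by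
  obtain ⟨C₁, hC₁⟩ := hc 1 one_pos
  refine ent0_const (ent_diff hC₁) (fun ε hε => ?_) hM z w
  obtain ⟨C, hC⟩ := hc ε hε
  exact ⟨C, fun z => ent_le hC hε.le z⟩

variable {Y : Type*} [NormedAddCommGroup Y] [NormedSpace ℝ Y] [CompleteSpace Y]

theorem gelfand_hille (D : Y →L[ℝ] Y) (y : Y) (M : ℝ) (hM : ∀ t : ℝ, ‖NormedSpace.exp (t • D) y‖ ≤ M)
    (hg : ∀ ε : ℝ, 0 < ε → ∃ C : ℝ, ∀ k : ℕ, ‖(D ^ k) y‖ ≤ C * ε ^ k) : D y = 0 := by
  have hφ : ∀ φ : Y →L[ℝ] ℝ, φ (D y) = 0 := by
    intro φ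
    set c : ℕ → ℝ := fun k => φ ((D ^ k) y) with hc
    have hval : ∀ t : ℝ, ent c t = ((φ (NormedSpace.exp (t • D) y) : ℝ) : ℂ) := by
      intro t
      have h1 := NormedSpace.exp_series_hasSum_exp' (𝕂 := ℝ) (t • D)
      have h2 : HasSum (fun n : ℕ => φ ((((n.factorial : ℝ)⁻¹) • (t • D) ^ n) y))
          (φ (NormedSpace.exp (t • D) y)) :=
        (h1.mapL (ContinuousLinearMap.apply ℝ Y y)).mapL φ
      have h3 := (Complex.hasSum_ofReal.2 h2).tsum_eq
      rw [← h3]
      unfold ent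
      refine tsum_congr fun k => ?_
      rw [hc, smul_pow, smul_apply, smul_apply, map_smul, map_smul, smul_eq_mul, smul_eq_mul]
      push_cast
      field_simp
    have h1 := ent_const (c := c) (M := ‖φ‖ * M) (fun ε hε => by
      obtain ⟨C, hC⟩ := hg ε hε
      refine ⟨‖φ‖ * C, fun k => ?_⟩
      rw [hc, ← Real.norm_eq_abs, mul_assoc]
      exact (φ.le_opNorm _).trans (mul_le_mul_of_nonneg_left (hC k) (norm_nonneg _))) (fun t => by
      rw [hval, Complex.norm_real]
      exact (φ.le_opNorm _).trans (mul_le_mul_of_nonneg_left (hM t) (norm_nonneg _)))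
    have h2 : ∀ t : ℝ, φ (NormedSpace.exp (t • D) y) = φ y := by
      intro t
      have h3 := h1 t (0 : ℝ)
      rw [hval, hval, zero_smul, NormedSpace.exp_zero] at h3
      exact_mod_cast h3
    have h4 : HasDerivAt (fun t : ℝ => φ (NormedSpace.exp (t • D) y)) (φ (D y)) 0 := by
      have h5 := hasDerivAt_exp_smul_const (𝕂 := ℝ) D (0 : ℝ)
      rw [zero_smul, NormedSpace.exp_zero, one_mul] at h5
      have h6 := ((φ.comp (ContinuousLinearMap.apply ℝ Y y)).hasFDerivAt).comp_hasDerivAt (0 : ℝ) h5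
      exact h6
    have h7 : HasDerivAt (fun t : ℝ => φ (NormedSpace.exp (t • D) y)) 0 0 := by
      have e : (fun t : ℝ => φ (NormedSpace.exp (t • D) y)) = fun _ => φ y := funext h2
      rw [e]
      exact hasDerivAt_const _ _
    exact h4.unique h7
  by_contra hne
  obtain ⟨g, -, hg2⟩ := exists_dual_vector ℝ (D y) (norm_ne_zero_iff.2 hne)
  have := hφ g
  rw [hg2] at this
  exact hne (norm_eq_zero.1 (by exact_mod_cast this))

end Pool.Agent.W5h44.BMC
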