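import Pool.Agent.W5h44.BMC.Near

/-!
# A conjugate of a skew operator does not commute with a compact operator
-/

set_option autoImplicit false

namespace Pool.Agent.W5h44.BMC

open Filter Topology Pool.Agent.TH596.RO

variable {E : Type*} [NormedAddCommGroup E] [NormedSpace ℝ E]

/-- the isometries which commute with all the conjugates of `R` -/
def cent (R : E →L[ℝ] E) : Subgroup (E ≃ₗᵢ[ℝ] E) where
  carrier := {S | ∀ (g : E ≃ₗᵢ[ℝ] E) (x : E), S (g (R (g.symm x))) = g (R (g.symm (S x)))}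
  mul_mem' := by
    intro S T hS hT g x
    show S (T (g (R (g.symm x)))) = g (R (g.symm (S (T x))))
    rw [hT, hS]
  one_mem' := fun g x => rfl
  inv_mem' := by
    intro S hS g x
    show S.symm (g (R (g.symm x))) = g (R (g.symm (S.symm x)))
    apply S.injective
    rw [S.apply_symm_apply, hS, S.apply_symm_apply]

theorem cent_normal (R : E →L[ℝ] E) (T S : E ≃ₗᵢ[ℝ] E) (hS : S ∈ cent R) : T * S * T⁻¹ ∈ cent R := by
  intro g x
  show T (S (T.symm (g (R (g.symm x))))) = g (R (g.symm (T (S (T.symm x)))))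
  have h1 := hS (g.trans T.symm) (T.symm x)
  have e1 : (g.trans T.symm) (R ((g.trans T.symm).symm (T.symm x))) = T.symm (g (R (g.symm x))) := by
    show T.symm (g (R (g.symm (T (T.symm x))))) = _
    rw [T.apply_symm_apply]
  rw [e1] at h1
  rw [h1]
  show T (T.symm (g (R (g.symm (T (S (T.symm x))))))) = _
  rw [T.apply_symm_apply]

variable [CompleteSpace E]

theorem exists_noncomm (hE : ¬ FiniteDimensional ℝ E)
    (hat : ∀ x y : E, ‖x‖ = 1 → ‖y‖ = 1 → ∀ ε : ℝ, 0 < ε → ∃ T : E ≃ₗᵢ[ℝ] E, ‖T x - y‖ < ε)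
    {R c : E →L[ℝ] E} (hR : IsCompactOperator R) (hR0 : R ≠ 0) (hc : Skew c) (hc0 : c ≠ 0)
    (hsm : ∀ ε : ℝ, 0 < ε → ∃ z : E, ‖z‖ = 1 ∧ ‖c z‖ ≤ ε) :
    ∃ g : E ≃ₗᵢ[ℝ] E, cj g c * R ≠ R * cj g c := by
  by_contra hcon
  push Not at hcon
  apply hc0
  have hAT : AT (⊤ : Subgroup (E ≃ₗᵢ[ℝ] E)) := by
    intro x y hx hy ε hε
    obtain ⟨T, hT⟩ := hat x y hx hy ε hε
    exact ⟨T, Subgroup.mem_top T, hT⟩
  obtain ⟨z, hz⟩ : ∃ z, R z ≠ 0 := by
    by_contra h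
    push Not at h
    exact hR0 (ContinuousLinearMap.ext h)
  have hmem : ∀ t : ℝ, hc.iso t ∈ cent R := by
    intro t g x
    have h1 : c * cj g R = cj g R * c := by
      have h2 := hcon g.symm
      ext x
      have h3 := congrArg (fun u : E →L[ℝ] E => g (u (g.symm x))) h2
      have h4 : g (g.symm (c (g (R (g.symm x))))) = g (R (g.symm (c (g (g.symm x))))) := h3
      rw [g.apply_symm_apply, g.apply_symm_apply] at h4
      exact h4
    have h2 : Commute (NormedSpace.exp (t • c)) (cj g R) := by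
      have h3 : Commute (t • c) (cj g R) := Commute.smul_left h1 t
      exact h3.exp_left
    exact congrArg (fun u : E →L[ℝ] E => u x) h2.eq
  have hDD : ∀ t : ℝ, NormedSpace.exp (t • c) ∈ DD (⊤ : Subgroup (E ≃ₗᵢ[ℝ] E)) := by
    intro t
    refine ap_normal hE hAT (N := cent R) (fun T _ S hS => cent_normal R T S hS) hz ?_ (hmem t)
    obtain ⟨K, hK, hK'⟩ := hR.image_closedBall_subset_compact ‖z‖
    refine hK.totallyBounded.subset ?_
    rintro _ ⟨S, hS, rfl⟩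
    apply hK'
    refine ⟨S z, ?_, ?_⟩
    · rw [mem_closedBall_zero_iff, S.norm_map]
    · exact (hS (LinearIsometryEquiv.refl ℝ E) z).symm
  have hcore := (core_DD hE hAT).2
  have hone : ∀ t : ℝ, NormedSpace.exp (t • c) = 1 := by
    intro t
    have h1 : NormedSpace.exp (t • c) - 1 ∈ DD (⊤ : Subgroup (E ≃ₗᵢ[ℝ] E)) :=
      sub_mem (hDD t) (one_mem _)
    have h2 := hcore _ h1
    rw [← sub_eq_zero, ← norm_eq_zero]
    refine le_antisymm (le_of_forall_pos_le_add fun ε hε => ?_) (norm_nonneg _)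
    haveI : Nontrivial E := nontriv hE
    obtain ⟨Ψ, -, hΨ, -⟩ := exp_factor (t • c)
    obtain ⟨w, hw1, hw2⟩ := hsm (ε / (‖Ψ‖ * |t| + 1)) (by positivity)
    have h3 := h2 w
    rw [hw1, mul_one] at h3
    rw [← h3, hΨ, zero_add]
    calc ‖(Ψ * (t • c)) w‖ ≤ ‖Ψ‖ * (|t| * ‖c w‖) := by
          show ‖Ψ (t • c w)‖ ≤ _
          refine (Ψ.le_opNorm _).trans (le_of_eq ?_)
          rw [norm_smul, Real.norm_eq_abs]
      _ ≤ ‖Ψ‖ * (|t| * (ε / (‖Ψ‖ * |t| + 1))) := by gcongr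
      _ = (‖Ψ‖ * |t|) / (‖Ψ‖ * |t| + 1) * ε := by field_simp
      _ ≤ 1 * ε := by
          refine mul_le_mul_of_nonneg_right ?_ hε.le
          rw [div_le_one (by positivity)]
          linarith
      _ = ε := one_mul _
  ext x
  have h1 := hasDerivAt_apply c x
  have h2 : (fun t : ℝ => NormedSpace.exp (t • c) x) = fun _ => x := by
    funext t
    rw [hone]
    rfl
  rw [h2] at h1
  exact h1.unique (hasDerivAt_const _ _)

/-- **Compact skew operators.** -/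
theorem near_of_compact_skew (hE : ¬ FiniteDimensional ℝ E)
    (hat : ∀ x y : E, ‖x‖ = 1 → ‖y‖ = 1 → ∀ ε : ℝ, 0 < ε → ∃ T : E ≃ₗᵢ[ℝ] E, ‖T x - y‖ < ε)
    {a : E →L[ℝ] E} (ha : Skew a) (hac : IsCompactOperator a) (ha0 : a ≠ 0) :
    ∃ k : ℕ, ∀ ε : ℝ, 0 < ε → ∃ (T : E ≃ₗᵢ[ℝ] E) (V : Submodule ℝ E), FiniteDimensional ℝ V ∧
      Module.finrank ℝ V ≤ k ∧ (∃ z, ‖z‖ ≤ 1 ∧ (1 / 8 : ℝ) ≤ ‖T z - z‖) ∧
      ∀ z, ∃ v ∈ V, ‖T z - z - v‖ ≤ ε * ‖z‖ := by
  haveI : Nontrivial E := nontriv hE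
  obtain ⟨g, hg⟩ := exists_noncomm hE hat hac ha0 ha ha0 fun ε hε => compact_small hE hac hε
  exact near_fin ha hac (ha.cj g) (sub_ne_zero.2 hg.symm)

/-- **A skew operator with small values and a compact perturbation of the identity.** -/
theorem near_of_skew_compact (hE : ¬ FiniteDimensional ℝ E)
    (hat : ∀ x y : E, ‖x‖ = 1 → ‖y‖ = 1 → ∀ ε : ℝ, 0 < ε → ∃ T : E ≃ₗᵢ[ℝ] E, ‖T x - y‖ < ε)
    {c : E →L[ℝ] E} (hc : Skew c) (hc0 : c ≠ 0)
    (hsm : ∀ ε : ℝ, 0 < ε → ∃ z : E, ‖z‖ = 1 ∧ ‖c z‖ ≤ ε)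
    (T : E ≃ₗᵢ[ℝ] E) {K : E →L[ℝ] E} (hK : IsCompactOperator K) (hK0 : K ≠ 0) (hT : ∀ x, T x = x + K x) :
    ∃ k : ℕ, ∀ ε : ℝ, 0 < ε → ∃ (T : E ≃ₗᵢ[ℝ] E) (V : Submodule ℝ E), FiniteDimensional ℝ V ∧
      Module.finrank ℝ V ≤ k ∧ (∃ z, ‖z‖ ≤ 1 ∧ (1 / 8 : ℝ) ≤ ‖T z - z‖) ∧
      ∀ z, ∃ v ∈ V, ‖T z - z - v‖ ≤ ε * ‖z‖ := by
  haveI : Nontrivial E := nontriv hE
  obtain ⟨g, hg⟩ := exists_noncomm hE hat hK hK0 hc hc0 hsm
  set b := cj g c with hb
  have hbS : Skew b := hc.cj g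
  set a := cj T b - b with ha
  have haS : Skew a := (hbS.cj T).sub hbS
  set Ti : E →L[ℝ] E := (T.symm.toContinuousLinearEquiv : E →L[ℝ] E) with hTi
  have haeq : a = K * (b * Ti) - (b * Ti) * K := by
    ext x
    show T (b (T.symm x)) - b x = K (b (T.symm x)) - b (T.symm (K x))
    have h1 : b x = b (T.symm (T x)) := by rw [T.symm_apply_apply]
    rw [hT (b (T.symm x)), h1, hT x, map_add, map_add]
    abel
  have hac : IsCompactOperator a := by
    rw [haeq]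
    exact (hK.comp_clm (b * Ti)).sub (hK.clm_comp (b * Ti))
  have ha0 : a ≠ 0 := by
    intro h0
    apply hg
    ext x
    have h1 : T (b (T.symm (T x))) = b (T x) := by
      have h2 := congrArg (fun u : E →L[ℝ] E => u (T x)) h0
      exact sub_eq_zero.1 h2
    rw [T.symm_apply_apply, hT (b x), hT x, map_add] at h1
    show b (K x) = K (b x)
    have h2 := add_left_cancel h1
    exact h2.symm
  exact near_of_compact_skew hE hat haS hac ha0

end Pool.Agent.W5h44.BMC
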