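import Pool.Agent.W5h44.BMC.Riesz

/-!
# Two skew operators which do not commute, one of them compact, give isometries which are nearly
finite rank perturbations of the identity
-/

set_option autoImplicit false

namespace Pool.Agent.W5h44.BMC

open Filter Topology Pool.Agent.TH596.RO

section alg

variable {A : Type*} [NormedRing A] [NormedAlgebra ℝ A] [NormOneClass A] [CompleteSpace A]

theorem exp_factor (x : A) : ∃ Ψ : A, NormedSpace.exp x - 1 = x * Ψ ∧ NormedSpace.exp x - 1 = Ψ * x ∧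
    ‖Ψ‖ ≤ Real.exp ‖x‖ := by
  have h := NormedSpace.exp_series_hasSum_exp' (𝕂 := ℝ) x
  have h2 := NormedSpace.exp_series_hasSum_exp' (𝕂 := ℝ) ‖x‖
  rw [← Real.exp_eq_exp_ℝ] at h2
  have h' := (hasSum_nat_add_iff' 1).2 h
  simp only [Finset.sum_range_succ, Finset.sum_range_zero, zero_add, Nat.factorial_zero,
    Nat.cast_one, inv_one, pow_zero, one_smul] at h'
  have hb : ∀ n : ℕ, ‖(((n + 1).factorial : ℝ)⁻¹) • x ^ n‖ ≤ ((n.factorial : ℝ)⁻¹) • ‖x‖ ^ n := by
    intro n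
    rw [norm_smul, norm_inv, Real.norm_natCast, smul_eq_mul]
    refine mul_le_mul ?_ (norm_pow_le x n) (norm_nonneg _) (by positivity)
    refine inv_anti₀ (by positivity) ?_
    exact_mod_cast Nat.factorial_le (Nat.le_succ n)
  have hs : Summable fun n : ℕ => (((n + 1).factorial : ℝ)⁻¹) • x ^ n :=
    Summable.of_norm_bounded h2.summable hb
  refine ⟨∑' n : ℕ, (((n + 1).factorial : ℝ)⁻¹) • x ^ n, ?_, ?_, ?_⟩
  · have h3 := hs.hasSum.mul_left x
    refine h'.unique ?_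
    have e : (fun n : ℕ => x * ((((n + 1).factorial : ℝ)⁻¹) • x ^ n)) =
        fun n : ℕ => (((n + 1).factorial : ℝ)⁻¹) • x ^ (n + 1) := by
      funext n
      rw [mul_smul_comm, pow_succ']
    rwa [e] at h3
  · have h3 := hs.hasSum.mul_right x
    refine h'.unique ?_
    have e : (fun n : ℕ => ((((n + 1).factorial : ℝ)⁻¹) • x ^ n) * x) =
        fun n : ℕ => (((n + 1).factorial : ℝ)⁻¹) • x ^ (n + 1) := by
      funext n
      rw [smul_mul_assoc, pow_succ]
    rwa [e] at h3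
  · exact tsum_of_norm_bounded h2 hb

end alg

variable {E : Type*} [NormedAddCommGroup E] [NormedSpace ℝ E] [CompleteSpace E]

omit [CompleteSpace E] in
theorem comp_bound {a b P : E →L[ℝ] E} (hPP : P * P = P) (hPa : P * a = a * P) {η C : ℝ} (hη : 0 ≤ η)
    (hC0 : 0 ≤ C) (hC : ∀ k : ℕ, ‖(a * (1 - P)) ^ k‖ ≤ C * η ^ k) (k : ℕ) : ∀ i j : ℕ,
    ‖(a * (1 - P)) ^ i * ((1 - P) * adk a b k * (1 - P)) * (a * (1 - P)) ^ j‖ ≤
      C * C * ‖(1 - P) * b * (1 - P)‖ * η ^ (i + j + k) * 2 ^ k := by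
  induction k with
  | zero =>
    intro i j
    have h1 : ‖(a * (1 - P)) ^ i * ((1 - P) * adk a b 0 * (1 - P)) * (a * (1 - P)) ^ j‖ ≤
        (C * η ^ i) * ‖(1 - P) * b * (1 - P)‖ * (C * η ^ j) := by
      refine (norm_mul_le _ _).trans (mul_le_mul ((norm_mul_le _ _).trans
        (mul_le_mul_of_nonneg_right (hC i) (norm_nonneg _))) (hC j) (norm_nonneg _) (by positivity))
    refine h1.trans (le_of_eq ?_)
    rw [add_zero, pow_add, pow_zero]
    ring
  | succ k ih =>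
    intro i j
    set q : E →L[ℝ] E := 1 - P with hq
    have hqq : q * q = q := by
      rw [hq, sub_mul, mul_sub, mul_sub, hPP]
      simp
    have hqa : q * a = a * q := by
      rw [hq, sub_mul, mul_sub, hPa, one_mul, mul_one]
    have e1 : q * adk a b (k + 1) * q = (a * q) * (q * adk a b k * q) - (q * adk a b k * q) * (a * q) := by
      show q * (a * adk a b k - adk a b k * a) * q = _
      have e2 : (a * q) * (q * adk a b k * q) = q * (a * adk a b k) * q := by
        calc (a * q) * (q * adk a b k * q) = a * (q * q) * adk a b k * q := by noncomm_ring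
          _ = (a * q) * adk a b k * q := by rw [hqq]
          _ = (q * a) * adk a b k * q := by rw [hqa]
          _ = q * (a * adk a b k) * q := by noncomm_ring
      have e3 : (q * adk a b k * q) * (a * q) = q * (adk a b k * a) * q := by
        calc (q * adk a b k * q) * (a * q) = q * adk a b k * (q * a) * q := by noncomm_ring
          _ = q * adk a b k * (a * q) * q := by rw [hqa]
          _ = q * adk a b k * a * (q * q) := by noncomm_ring
          _ = q * (adk a b k * a) * q := by rw [hqq]; noncomm_ring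
      rw [e2, e3]
      noncomm_ring
    have e4 : (a * q) ^ i * (q * adk a b (k + 1) * q) * (a * q) ^ j =
        (a * q) ^ (i + 1) * (q * adk a b k * q) * (a * q) ^ j -
          (a * q) ^ i * (q * adk a b k * q) * (a * q) ^ (j + 1) := by
      rw [e1, pow_succ (a * q) i, pow_succ' (a * q) j]
      noncomm_ring
    rw [e4]
    refine (norm_sub_le _ _).trans ((add_le_add (ih (i + 1) j) (ih i (j + 1))).trans (le_of_eq ?_))
    have e5 : i + 1 + j + k = i + j + (k + 1) := by omega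
    have e6 : i + (j + 1) + k = i + j + (k + 1) := by omega
    rw [e5, e6, pow_succ (2 : ℝ) k]
    ring

/-- **Nearly finite rank perturbations of the identity.** -/
theorem near_fin [Nontrivial E] {a b : E →L[ℝ] E} (ha : Skew a) (hac : IsCompactOperator a)
    (hb : Skew b) (hab : a * b - b * a ≠ 0) :
    ∃ k : ℕ, ∀ ε : ℝ, 0 < ε → ∃ (T : E ≃ₗᵢ[ℝ] E) (V : Submodule ℝ E), FiniteDimensional ℝ V ∧
      Module.finrank ℝ V ≤ k ∧ (∃ z, ‖z‖ ≤ 1 ∧ (1 / 8 : ℝ) ≤ ‖T z - z‖) ∧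
      ∀ z, ∃ v ∈ V, ‖T z - z - v‖ ≤ ε * ‖z‖ := by
  obtain ⟨ρ, hρ, hgr⟩ := ad_growth ha hab
  obtain ⟨V, P, hVf, hP1, hP2, hP3, C₀, hC₀⟩ := riesz ha hac (η := ρ / 4) (by positivity)
  have hPP : P * P = P := by
    ext x
    exact hP2 _ (hP1 x)
  have hPa : P * a = a * P := by
    ext x
    exact hP3 x
  set C : ℝ := max C₀ 0 with hCdef
  have hC0 : 0 ≤ C := le_max_right _ _
  have hC : ∀ k : ℕ, ‖(a * (1 - P)) ^ k‖ ≤ C * (ρ / 4) ^ k := fun k =>
    (hC₀ k).trans (mul_le_mul_of_nonneg_right (le_max_left _ _) (by positivity))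
  refine ⟨2 * Module.finrank ℝ V, fun ε hε => ?_⟩
  set B : ℝ := C * C * ‖(1 - P) * b * (1 - P)‖ with hB
  have hB0 : 0 ≤ B := by positivity
  obtain ⟨k, hk⟩ := hgr ((B + 1) / ε)
  set N : ℝ := ‖adk a b k‖ with hN
  have hN0 : 0 < N := lt_of_le_of_lt (by positivity) hk
  set c : E →L[ℝ] E := N⁻¹ • adk a b k with hc
  have hcS : Skew c := (ha.adk hb k).smul _
  have hcn : ‖c‖ = 1 := by
    rw [hc, norm_smul, norm_inv, Real.norm_of_nonneg hN0.le, inv_mul_cancel₀ hN0.ne']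
  -- the compression of `c`
  have hqc : ‖(1 - P) * c * (1 - P)‖ ≤ ε := by
    have h1 := comp_bound (b := b) hPP hPa (by positivity) hC0 hC k 0 0
    rw [pow_zero, one_mul, mul_one, zero_add, zero_add, ← hB] at h1
    have h2 : (1 - P) * c * (1 - P) = N⁻¹ • ((1 - P) * adk a b k * (1 - P)) := by
      rw [hc, mul_smul_comm, smul_mul_assoc]
    rw [h2, norm_smul, norm_inv, Real.norm_of_nonneg hN0.le, inv_mul_le_iff₀ hN0]
    refine h1.trans ?_
    have h3 : (ρ / 4) ^ k * 2 ^ k ≤ ρ ^ k := by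
      rw [← mul_pow]
      exact pow_le_pow_left₀ (by positivity) (by linarith) k
    calc B * (ρ / 4) ^ k * 2 ^ k = B * ((ρ / 4) ^ k * 2 ^ k) := by ring
      _ ≤ (B + 1) * ρ ^ k := mul_le_mul (by linarith) h3 (by positivity) (by positivity)
      _ = ((B + 1) / ε * ρ ^ k) * ε := by field_simp
      _ ≤ N * ε := mul_le_mul_of_nonneg_right hk.le hε.le
  refine ⟨hcS.iso (1 / 2), V ⊔ V.map (((1 - P) * c : E →L[ℝ] E) : E →ₗ[ℝ] E), inferInstance, ?_, ?_, ?_⟩
  · have h1 := Submodule.finrank_add_le_finrank_add_finrank V (V.map (((1 - P) * c : E →L[ℝ] E) : E →ₗ[ℝ] E))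
    have h2 := Submodule.finrank_map_le (((1 - P) * c : E →L[ℝ] E) : E →ₗ[ℝ] E) V
    omega
  · have hx : ‖(1 / 2 : ℝ) • c‖ = 1 / 2 := by
      rw [norm_smul, hcn, mul_one]
      norm_num
    have h1 := norm_exp_sub_one_sub_le_sq (x := (1 / 2 : ℝ) • c) (by rw [hx]; norm_num)
    rw [hx] at h1
    have h2 : (1 / 4 : ℝ) ≤ ‖NormedSpace.exp ((1 / 2 : ℝ) • c) - 1‖ := by
      have h3 : (1 / 2 : ℝ) • c = (NormedSpace.exp ((1 / 2 : ℝ) • c) - 1) -
          (NormedSpace.exp ((1 / 2 : ℝ) • c) - 1 - (1 / 2 : ℝ) • c) := by abel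
      have h4 := norm_sub_le (NormedSpace.exp ((1 / 2 : ℝ) • c) - 1)
        (NormedSpace.exp ((1 / 2 : ℝ) • c) - 1 - (1 / 2 : ℝ) • c)
      rw [← h3, hx] at h4
      linarith
    obtain ⟨z, hz1, hz2⟩ := ContinuousLinearMap.exists_lt_apply_of_lt_opNorm
      (NormedSpace.exp ((1 / 2 : ℝ) • c) - 1) (lt_of_lt_of_le (by norm_num : (1 / 8 : ℝ) < 1 / 4) h2)
    exact ⟨z, hz1.le, hz2.le⟩
  · intro z
    obtain ⟨Ψ, hΨ1, -, hΨ2⟩ := exp_factor ((1 / 2 : ℝ) • c)
    have hΨ3 : ‖Ψ‖ ≤ 2 := by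
      refine hΨ2.trans ?_
      have hx : ‖(1 / 2 : ℝ) • c‖ = 1 / 2 := by
        rw [norm_smul, hcn, mul_one]
        norm_num
      rw [hx]
      have h1 : Real.exp (1 / 2) ^ 2 = Real.exp 1 := by
        rw [← Real.exp_nat_mul]
        norm_num
      have h2 := Real.exp_one_lt_d9
      nlinarith [Real.exp_pos (1 / 2)]
    set w : E := (1 / 2 : ℝ) • Ψ z with hw
    have hw1 : ‖w‖ ≤ ‖z‖ := by
      rw [hw, norm_smul]
      have h1 := (Ψ.le_opNorm z).trans (mul_le_mul_of_nonneg_right hΨ3 (norm_nonneg z))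
      rw [Real.norm_of_nonneg (by norm_num)]
      linarith
    have h1 : hcS.iso (1 / 2) z - z = c w := by
      have h2 := congrArg (fun u : E →L[ℝ] E => u z) hΨ1
      have h3 : NormedSpace.exp ((1 / 2 : ℝ) • c) z - z = (1 / 2 : ℝ) • c (Ψ z) := h2
      rw [Skew.iso_apply, h3, hw, map_smul]
    refine ⟨P (c w) + (c (P w) - P (c (P w))), ?_, ?_⟩
    · refine Submodule.add_mem_sup (hP1 _) ⟨P w, hP1 w, ?_⟩
      rfl
    · rw [h1]
      have h2 : c w - (P (c w) + (c (P w) - P (c (P w)))) = ((1 - P) * c * (1 - P)) w := by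
        show _ = c (w - P w) - P (c (w - P w))
        simp only [map_sub]
        abel
      rw [h2]
      exact (ContinuousLinearMap.le_opNorm _ _).trans (mul_le_mul hqc hw1 (norm_nonneg _) hε.le)

/-- a compact operator of an infinite-dimensional space is not bounded below -/
theorem compact_small {F : Type*} [NormedAddCommGroup F] [NormedSpace ℝ F] (hF : ¬ FiniteDimensional ℝ F)
    {a : F →L[ℝ] F} (ha : IsCompactOperator a) {ε : ℝ} (hε : 0 < ε) : ∃ z : F, ‖z‖ = 1 ∧ ‖a z‖ ≤ ε := by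
  by_contra hcon
  push Not at hcon
  apply hF
  have hbd : ∀ z : F, ε * ‖z‖ ≤ ‖a z‖ := by
    intro z
    by_cases hz : z = 0
    · rw [hz, norm_zero, map_zero, norm_zero, mul_zero]
    · have h1 := hcon ((‖z‖⁻¹ : ℝ) • z) (norm_smul_inv_norm (𝕜 := ℝ) hz)
      rw [map_smul, norm_smul, norm_inv, norm_norm] at h1
      have h2 : 0 < ‖z‖ := norm_pos_iff.2 hz
      rw [lt_inv_mul_iff₀ h2] at h1
      linarith
  by_contra hinf
  obtain ⟨f, hf1, hf2⟩ := exists_seq_norm_le_one_le_norm_sub' (𝕜 := ℝ) (E := F) (c := 2) (by norm_num)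
    (R := 3) (by norm_num) hinf
  obtain ⟨K, hK, hK'⟩ := ha.image_closedBall_subset_compact 3
  obtain ⟨w, -, φ, hφ, hφw⟩ := hK.tendsto_subseq (x := fun n => a (f n)) (fun n => hK' ⟨f n, by
    rw [mem_closedBall_zero_iff]
    exact hf1 n, rfl⟩)
  have hcs := hφw.cauchySeq
  rw [Metric.cauchySeq_iff'] at hcs
  obtain ⟨N, hN⟩ := hcs ε hε
  have h1 := hN (N + 1) (by omega)
  rw [dist_eq_norm] at h1
  have h2 : (1 : ℝ) ≤ ‖f (φ (N + 1)) - f (φ N)‖ := hf2 (by
    intro h
    exact absurd (hφ.injective h) (by omega))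
  have h3 := hbd (f (φ (N + 1)) - f (φ N))
  rw [map_sub] at h3
  have h4 : ‖a (f (φ (N + 1))) - a (f (φ N))‖ < ε := h1
  nlinarith

end Pool.Agent.W5h44.BMC
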