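import Pool.Agent.W5h44.BMC.Comm

/-!
# An invariant finite-dimensional subspace of a skew operator is the range of a commuting projection
-/

set_option autoImplicit false

namespace Pool.Agent.W5h44.BMC

open Filter Topology MeasureTheory

variable {E : Type*} [NormedAddCommGroup E] [NormedSpace ℝ E] [CompleteSpace E]

theorem exp_mem {a : E →L[ℝ] E} {V : Submodule ℝ E} [FiniteDimensional ℝ V] (hV : ∀ v ∈ V, a v ∈ V)
    {v : E} (hv : v ∈ V) : NormedSpace.exp a v ∈ V := by
  have h1 := (NormedSpace.exp_series_hasSum_exp' (𝕂 := ℝ) a).mapL (ContinuousLinearMap.apply ℝ E v)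
  have hcl : IsClosed (V : Set E) := Submodule.closed_of_finiteDimensional V
  have hpow : ∀ n : ℕ, (a ^ n) v ∈ V := by
    intro n
    induction n with
    | zero => simpa using hv
    | succ n ih =>
      rw [pow_succ', mul_apply_eq_comp]
      exact hV _ ih
  exact hcl.mem_of_tendsto h1.tendsto_sum_nat (Filter.Eventually.of_forall fun n =>
    V.sum_mem fun k _ => V.smul_mem _ (hpow k))

theorem exp_neg_mem {a : E →L[ℝ] E} {V : Submodule ℝ E} [FiniteDimensional ℝ V] (hV : ∀ v ∈ V, a v ∈ V)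
    (t : ℝ) {v : E} (hv : v ∈ V) : NormedSpace.exp (t • a) v ∈ V :=
  exp_mem (a := t • a) (fun v hv => V.smul_mem t (hV v hv)) hv

theorem exp_add_apply (a : E →L[ℝ] E) (s t : ℝ) (x : E) :
    NormedSpace.exp ((s + t) • a) x = NormedSpace.exp (s • a) (NormedSpace.exp (t • a) x) := by
  rw [add_smul, exp_add_c (((Commute.refl a).smul_left s).smul_right t), mul_apply_eq_comp]

theorem exp_cont (a : E →L[ℝ] E) : Continuous fun t : ℝ => NormedSpace.exp (t • a) := by
  let _ : NormedAlgebra ℚ (E →L[ℝ] E) := NormedAlgebra.restrictScalars ℚ ℝ _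
  exact NormedSpace.exp_continuous.comp (continuous_id.smul continuous_const)

section

variable {a : E →L[ℝ] E} {V : Submodule ℝ E} (Q : E →L[ℝ] V)

/-- the function whose mean is the projection -/
noncomputable def gf (a : E →L[ℝ] E) (Q : E →L[ℝ] V) (x : E) (t : ℝ) : V :=
  Q (NormedSpace.exp ((-t) • a) (Q (NormedSpace.exp (t • a) x) : E))

omit [CompleteSpace E] in
theorem gf_add (x y : E) (t : ℝ) : gf a Q (x + y) t = gf a Q x t + gf a Q y t := by
  simp only [gf, map_add, Submodule.coe_add]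

omit [CompleteSpace E] in
theorem gf_smul (c : ℝ) (x : E) (t : ℝ) : gf a Q (c • x) t = c • gf a Q x t := by
  simp only [gf, map_smul, Submodule.coe_smul]

theorem gf_cont (x : E) : Continuous (gf a Q x) := by
  have h1 : Continuous fun t : ℝ => (Q (NormedSpace.exp (t • a) x) : E) :=
    continuous_subtype_val.comp (Q.continuous.comp ((exp_cont a).clm_apply continuous_const))
  have h2 : Continuous fun t : ℝ => NormedSpace.exp ((-t) • a) :=
    (exp_cont a).comp continuous_neg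
  exact Q.continuous.comp (h2.clm_apply h1)

variable [FiniteDimensional ℝ V]

theorem gf_coe (hV : ∀ v ∈ V, a v ∈ V) (hQ : ∀ v : V, Q v = v) (x : E) (t : ℝ) :
    (gf a Q x t : E) = NormedSpace.exp ((-t) • a) (Q (NormedSpace.exp (t • a) x) : E) := by
  have h := exp_neg_mem hV (-t) (Q (NormedSpace.exp (t • a) x)).2
  exact congrArg Subtype.val (hQ ⟨_, h⟩)

theorem gf_norm (ha : Skew a) (hV : ∀ v ∈ V, a v ∈ V) (hQ : ∀ v : V, Q v = v) (x : E) (t : ℝ) :
    ‖gf a Q x t‖ ≤ ‖Q‖ * ‖x‖ := by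
  rw [Submodule.coe_norm, gf_coe Q hV hQ, ha.norm_exp, ← Submodule.coe_norm]
  exact (Q.le_opNorm _).trans (mul_le_mul_of_nonneg_left (ha t x) (norm_nonneg _))

theorem gf_self (hV : ∀ v ∈ V, a v ∈ V) (hQ : ∀ v : V, Q v = v) (v : V) (t : ℝ) :
    gf a Q v t = v := by
  apply Subtype.ext
  rw [gf_coe Q hV hQ]
  have h1 : (Q (NormedSpace.exp (t • a) (v : E)) : E) = NormedSpace.exp (t • a) (v : E) :=
    congrArg Subtype.val (hQ ⟨_, exp_neg_mem hV t v.2⟩)
  rw [h1, neg_smul, exp_cancel]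

theorem gf_shift (hV : ∀ v ∈ V, a v ∈ V) (hQ : ∀ v : V, Q v = v) (x : E) (s t : ℝ) :
    (gf a Q (NormedSpace.exp (s • a) x) t : E) = NormedSpace.exp (s • a) (gf a Q x (t + s) : E) := by
  rw [gf_coe Q hV hQ, gf_coe Q hV hQ, ← exp_add_apply, ← exp_add_apply]
  congr 3
  ring

/-- the means -/
noncomputable def gm (a : E →L[ℝ] E) (Q : E →L[ℝ] V) (n : ℕ) (x : E) : V :=
  ((n : ℝ) + 1)⁻¹ • ∫ t in (0 : ℝ)..((n : ℝ) + 1), gf a Q x t

theorem gm_add (n : ℕ) (x y : E) : gm a Q n (x + y) = gm a Q n x + gm a Q n y := by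
  unfold gm
  rw [← smul_add, ← intervalIntegral.integral_add ((gf_cont Q x).intervalIntegrable _ _)
    ((gf_cont Q y).intervalIntegrable _ _)]
  simp only [gf_add]

theorem gm_smul (n : ℕ) (c : ℝ) (x : E) : gm a Q n (c • x) = c • gm a Q n x := by
  unfold gm
  simp only [gf_smul]
  rw [intervalIntegral.integral_smul, smul_comm]

theorem gm_norm (ha : Skew a) (hV : ∀ v ∈ V, a v ∈ V) (hQ : ∀ v : V, Q v = v) (n : ℕ) (x : E) :
    ‖gm a Q n x‖ ≤ ‖Q‖ * ‖x‖ := by
  unfold gm
  have h0 : (0 : ℝ) < (n : ℝ) + 1 := by positivity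
  have h1 := intervalIntegral.norm_integral_le_of_norm_le_const (a := (0 : ℝ)) (b := (n : ℝ) + 1)
    (f := gf a Q x) (C := ‖Q‖ * ‖x‖) fun t _ => gf_norm Q ha hV hQ x t
  rw [norm_smul, norm_inv, Real.norm_of_nonneg h0.le, inv_mul_le_iff₀ h0]
  rw [sub_zero, abs_of_pos h0] at h1
  linarith

theorem gm_self (hV : ∀ v ∈ V, a v ∈ V) (hQ : ∀ v : V, Q v = v) (n : ℕ) (v : V) :
    gm a Q n v = v := by
  unfold gm
  have h0 : (0 : ℝ) < (n : ℝ) + 1 := by positivity
  simp only [gf_self Q hV hQ]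
  rw [intervalIntegral.integral_const, sub_zero, smul_smul, inv_mul_cancel₀ h0.ne', one_smul]

theorem gm_shift (ha : Skew a) (hV : ∀ v ∈ V, a v ∈ V) (hQ : ∀ v : V, Q v = v) (n : ℕ) (x : E) (s : ℝ) :
    ‖(gm a Q n (NormedSpace.exp (s • a) x) : E) - NormedSpace.exp (s • a) (gm a Q n x : E)‖ ≤
      ((n : ℝ) + 1)⁻¹ * (2 * |s| * (‖Q‖ * ‖x‖)) := by
  have h0 : (0 : ℝ) < (n : ℝ) + 1 := by positivity
  have hc := gf_cont (a := a) Q x
  have e1 : (gm a Q n (NormedSpace.exp (s • a) x) : E) =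
      NormedSpace.exp (s • a) ((((n : ℝ) + 1)⁻¹ • ∫ t in (0 : ℝ)..((n : ℝ) + 1), gf a Q x (t + s) : V) : E) := by
    unfold gm
    rw [Submodule.coe_smul, Submodule.coe_smul, map_smul]
    congr 1
    have h1 : ((∫ t in (0 : ℝ)..((n : ℝ) + 1), gf a Q (NormedSpace.exp (s • a) x) t : V) : E) =
        ∫ t in (0 : ℝ)..((n : ℝ) + 1), (gf a Q (NormedSpace.exp (s • a) x) t : E) :=
      (V.subtypeL.intervalIntegral_comp_comm ((gf_cont Q _).intervalIntegrable _ _)).symm
    have h2 : NormedSpace.exp (s • a) ((∫ t in (0 : ℝ)..((n : ℝ) + 1), gf a Q x (t + s) : V) : E) =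
        ∫ t in (0 : ℝ)..((n : ℝ) + 1), NormedSpace.exp (s • a) (gf a Q x (t + s) : E) :=
      (((NormedSpace.exp (s • a)).comp V.subtypeL).intervalIntegral_comp_comm
        ((hc.comp (continuous_id.add continuous_const)).intervalIntegrable _ _)).symm
    rw [h1, h2]
    simp only [gf_shift Q hV hQ]
  have e2 : (∫ t in (0 : ℝ)..((n : ℝ) + 1), gf a Q x (t + s)) - ∫ t in (0 : ℝ)..((n : ℝ) + 1), gf a Q x t =
      (∫ t in ((n : ℝ) + 1)..((n : ℝ) + 1 + s), gf a Q x t) - ∫ t in (0 : ℝ)..s, gf a Q x t := by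
    rw [intervalIntegral.integral_comp_add_right, zero_add]
    have i1 := intervalIntegral.integral_add_adjacent_intervals (hc.intervalIntegrable (μ := volume) 0 s)
      (hc.intervalIntegrable (μ := volume) s ((n : ℝ) + 1 + s))
    have i2 := intervalIntegral.integral_add_adjacent_intervals
      (hc.intervalIntegrable (μ := volume) 0 ((n : ℝ) + 1))
      (hc.intervalIntegrable (μ := volume) ((n : ℝ) + 1) ((n : ℝ) + 1 + s))
    have i3 : (∫ t in s..((n : ℝ) + 1 + s), gf a Q x t) =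
      (∫ t in (0 : ℝ)..((n : ℝ) + 1 + s), gf a Q x t) - ∫ t in (0 : ℝ)..s, gf a Q x t := by
      rw [← i1]; abel
    rw [i3, ← i2]
    abel
  rw [e1, ← map_sub, ha.norm_exp, ← Submodule.coe_sub, ← Submodule.coe_norm]
  unfold gm
  rw [← smul_sub, e2, norm_smul, norm_inv, Real.norm_of_nonneg h0.le]
  refine mul_le_mul_of_nonneg_left ?_ (by positivity)
  have b1 := intervalIntegral.norm_integral_le_of_norm_le_const (a := ((n : ℝ) + 1)) (b := (n : ℝ) + 1 + s)
    (f := gf a Q x) (C := ‖Q‖ * ‖x‖) fun t _ => gf_norm Q ha hV hQ x t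
  have b2 := intervalIntegral.norm_integral_le_of_norm_le_const (a := (0 : ℝ)) (b := s)
    (f := gf a Q x) (C := ‖Q‖ * ‖x‖) fun t _ => gf_norm Q ha hV hQ x t
  rw [add_sub_cancel_left] at b1
  rw [sub_zero] at b2
  refine (norm_sub_le _ _).trans ?_
  linarith

end

/-- **Commuting projections.** -/
theorem exists_proj {a : E →L[ℝ] E} (ha : Skew a) (V : Submodule ℝ E) [FiniteDimensional ℝ V]
    (hV : ∀ v ∈ V, a v ∈ V) :
    ∃ P : E →L[ℝ] E, (∀ x, P x ∈ V) ∧ (∀ v ∈ V, P v = v) ∧ ∀ x, P (a x) = a (P x) := by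
  obtain ⟨Q, hQ⟩ := Submodule.ClosedComplemented.of_finiteDimensional V
  set U : Ultrafilter ℕ := hyperfilter ℕ with hU
  have hlim : ∀ x : E, ∃ l : V, Tendsto (fun n => gm a Q n x) (U : Filter ℕ) (𝓝 l) := by
    intro x
    obtain ⟨l, -, hl⟩ := (isCompact_closedBall (0 : V) (‖Q‖ * ‖x‖)).ultrafilter_le_nhds
      (U.map fun n => gm a Q n x) (by
        rw [Ultrafilter.coe_map, le_principal_iff]
        exact Filter.mem_map.2 (Filter.univ_mem' fun n => by
          show gm a Q n x ∈ Metric.closedBall (0 : V) (‖Q‖ * ‖x‖)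
          rw [mem_closedBall_zero_iff]
          exact gm_norm Q ha hV hQ n x))
    exact ⟨l, hl⟩
  choose l hl using hlim
  have hladd : ∀ x y, l (x + y) = l x + l y := fun x y => by
    refine tendsto_nhds_unique (hl (x + y)) ?_
    simp only [gm_add]
    exact (hl x).add (hl y)
  have hlsmul : ∀ (c : ℝ) x, l (c • x) = c • l x := fun c x => by
    refine tendsto_nhds_unique (hl (c • x)) ?_
    simp only [gm_smul]
    exact (hl x).const_smul c
  have hlnorm : ∀ x, ‖l x‖ ≤ ‖Q‖ * ‖x‖ := fun x =>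
    le_of_tendsto (hl x).norm (Filter.Eventually.of_forall fun n => gm_norm Q ha hV hQ n x)
  set L : E →L[ℝ] V := LinearMap.mkContinuous
    { toFun := l
      map_add' := hladd
      map_smul' := hlsmul } ‖Q‖ hlnorm with hL
  set P : E →L[ℝ] E := V.subtypeL.comp L with hP
  have hPx : ∀ x, P x = (l x : E) := fun x => rfl
  have hshift : ∀ (s : ℝ) (x : E), P (NormedSpace.exp (s • a) x) = NormedSpace.exp (s • a) (P x) := by
    intro s x
    rw [hPx, hPx, ← sub_eq_zero, ← norm_eq_zero]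
    have h1 : Tendsto (fun n => ‖(gm a Q n (NormedSpace.exp (s • a) x) : E) -
        NormedSpace.exp (s • a) (gm a Q n x : E)‖) (U : Filter ℕ)
        (𝓝 ‖(l (NormedSpace.exp (s • a) x) : E) - NormedSpace.exp (s • a) (l x : E)‖) :=
      (((continuous_subtype_val.tendsto _).comp (hl _)).sub
        (((NormedSpace.exp (s • a)).continuous.tendsto _).comp
          ((continuous_subtype_val.tendsto _).comp (hl x)))).norm
    have h2 : Tendsto (fun n : ℕ => ((n : ℝ) + 1)⁻¹ * (2 * |s| * (‖Q‖ * ‖x‖))) (U : Filter ℕ) (𝓝 0) := by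
      have h3 := (tendsto_one_div_add_atTop_nhds_zero_nat (𝕜 := ℝ)).mono_left
        (Nat.hyperfilter_le_atTop)
      simp only [one_div] at h3
      simpa using h3.mul_const (2 * |s| * (‖Q‖ * ‖x‖))
    refine le_antisymm (le_of_tendsto_of_tendsto h1 h2 (Filter.Eventually.of_forall fun n => ?_))
      (norm_nonneg _)
    exact gm_shift Q ha hV hQ n x s
  refine ⟨P, fun x => (l x).2, fun v hv => ?_, fun x => ?_⟩
  · rw [hPx]
    have h1 : l v = ⟨v, hv⟩ := by
      refine tendsto_nhds_unique (hl v) ?_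
      have h2 : ∀ n, gm a Q n v = ⟨v, hv⟩ := fun n => gm_self Q hV hQ n ⟨v, hv⟩
      simp only [h2]
      exact tendsto_const_nhds
    rw [h1]
  · have h1 := quot_tendsto (hasDerivAt_apply a x)
    have h2 := (P.continuous.tendsto _).comp h1
    have h3 := quot_tendsto (hasDerivAt_apply a (P x))
    refine tendsto_nhds_unique (h2.congr fun n => ?_) h3
    rw [Function.comp_apply, map_smul, map_sub, hshift, hshift]

end Pool.Agent.W5h44.BMC
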