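import Pool.Agent.W5h44.BMC.Proj
import Pool.Agent.TH596.RO.Spec
import Pool.Agent.Helper757.GL.Zem

/-!
# The Riesz decomposition for a compact skew operator
-/

set_option autoImplicit false

namespace Pool.Agent.W5h44.BMC

open Filter Topology Pool.Agent.TH596.RO

section cx

variable {Y : Type*} [NormedAddCommGroup Y] [NormedSpace ℝ Y]

theorem ext1_mul (a b : Y →L[ℝ] Y) : CE.ext1 (a * b) = CE.ext1 a * CE.ext1 b := by
  ext f
  rfl

theorem ext1_pow (a : Y →L[ℝ] Y) (n : ℕ) : CE.ext1 (a ^ n) = (CE.ext1 a) ^ n := by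
  induction n with
  | zero => rfl
  | succ n ih => rw [pow_succ, pow_succ, ext1_mul, ih]

theorem norm_le_ext1 (a : Y →L[ℝ] Y) : ‖a‖ ≤ ‖CE.ext1 a‖ := by
  refine ContinuousLinearMap.opNorm_le_bound _ (norm_nonneg _) fun x => ?_
  set f : CE Y := CE.mk (ContinuousLinearMap.smulRight Complex.reCLM x) with hf
  have h1 : ‖f‖ ≤ ‖x‖ := by
    refine CE.norm_le (norm_nonneg _) fun w => ?_
    show ‖w.re • x‖ ≤ _
    rw [norm_smul, mul_comm, Real.norm_eq_abs]
    exact mul_le_mul_of_nonneg_left (Complex.abs_re_le_norm w) (norm_nonneg _)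
  have h2 : (CE.ext1 a f).fn 1 = a x := by
    show a ((1 : ℂ).re • x) = a x
    rw [Complex.one_re, one_smul]
  calc ‖a x‖ = ‖(CE.ext1 a f).fn 1‖ := by rw [h2]
    _ ≤ ‖CE.ext1 a f‖ * ‖(1 : ℂ)‖ := CE.apply_le _ _
    _ = ‖CE.ext1 a f‖ := by rw [norm_one, mul_one]
    _ ≤ ‖CE.ext1 a‖ * ‖f‖ := ContinuousLinearMap.le_opNorm _ _
    _ ≤ ‖CE.ext1 a‖ * ‖x‖ := mul_le_mul_of_nonneg_left h1 (norm_nonneg _)

/-- the map `(x, y) ↦ (w ↦ re w x + im w y)` -/
noncomputable def pairMap (p : Y × Y) : CE Y :=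
  CE.mk (ContinuousLinearMap.smulRight Complex.reCLM p.1 + ContinuousLinearMap.smulRight Complex.imCLM p.2)

theorem pairMap_cont : Continuous (pairMap : Y × Y → CE Y) := by
  have h1 : Continuous fun p : Y × Y => ContinuousLinearMap.smulRight Complex.reCLM p.1 :=
    ((ContinuousLinearMap.smulRightL ℝ ℂ Y Complex.reCLM).continuous).comp continuous_fst
  have h2 : Continuous fun p : Y × Y => ContinuousLinearMap.smulRight Complex.imCLM p.2 :=
    ((ContinuousLinearMap.smulRightL ℝ ℂ Y Complex.imCLM).continuous).comp continuous_snd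
  exact h1.add h2

theorem fn_eq (f : CE Y) (w : ℂ) : f.fn w = w.re • f.fn 1 + w.im • f.fn Complex.I := by
  conv_lhs => rw [← Complex.re_add_im w]
  rw [map_add]
  congr 1
  · rw [← map_smul]
    congr 1
    simp
  · rw [← map_smul]
    congr 1

theorem pairMap_fn (f : CE Y) : pairMap (f.fn 1, f.fn Complex.I) = f := by
  apply CE.ext
  intro w
  rw [fn_eq f w]
  rfl

theorem ext1_compact {a : Y →L[ℝ] Y} (ha : IsCompactOperator a) : IsCompactOperator (CE.ext1 a) := by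
  obtain ⟨K, hK, hK'⟩ := ha.image_closedBall_subset_compact 1
  rw [isCompactOperator_iff_exists_mem_nhds_image_subset_compact]
  refine ⟨Metric.closedBall 0 1, Metric.closedBall_mem_nhds _ one_pos, pairMap '' (K ×ˢ K),
    (hK.prod hK).image pairMap_cont, ?_⟩
  rintro _ ⟨f, hf, rfl⟩
  rw [mem_closedBall_zero_iff] at hf
  refine ⟨((CE.ext1 a f).fn 1, (CE.ext1 a f).fn Complex.I), ⟨hK' ⟨f.fn 1, ?_, rfl⟩,
    hK' ⟨f.fn Complex.I, ?_, rfl⟩⟩, pairMap_fn _⟩
  · rw [mem_closedBall_zero_iff]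
    refine (f.apply_le _).trans ?_
    rwa [norm_one, mul_one]
  · rw [mem_closedBall_zero_iff]
    refine (f.apply_le _).trans ?_
    rwa [Complex.norm_I, mul_one]

theorem exists_eig [CompleteSpace Y] [Nontrivial Y] {M : Y →L[ℝ] Y} (hM : IsCompactOperator M) {η : ℝ}
    (hη : 0 < η) (h : ¬ ∃ C : ℝ, ∀ k : ℕ, ‖M ^ k‖ ≤ C * η ^ k) :
    ∃ (k : ℂ) (f : CE Y), η / 2 < ‖k‖ ∧ f ≠ 0 ∧ CE.ext1 M f = k • f := by
  by_cases hs : ∀ μ ∈ spectrum ℂ (CE.ext1 M), ‖μ‖ ≤ η / 2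
  · exfalso
    apply h
    obtain ⟨k₀, hk₀⟩ := Pool.Agent.Helper757.GL.eventually_pow_lt (CE.ext1 M) (by positivity)
      (half_lt_self hη) hs
    refine ⟨1 + ∑ j ∈ Finset.range k₀, ‖M ^ j‖ / η ^ j, fun k => ?_⟩
    have hpos : ∀ j ∈ Finset.range k₀, 0 ≤ ‖M ^ j‖ / η ^ j := fun j _ => by positivity
    by_cases hk : k₀ ≤ k
    · have h1 : ‖M ^ k‖ ≤ η ^ k := by
        refine (norm_le_ext1 _).trans ?_
        rw [ext1_pow]
        exact (hk₀ k hk).le
      have h2 : 0 ≤ ∑ j ∈ Finset.range k₀, ‖M ^ j‖ / η ^ j := Finset.sum_nonneg hpos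
      have h3 : 0 ≤ η ^ k := by positivity
      nlinarith
    · have h1 : ‖M ^ k‖ / η ^ k ≤ ∑ j ∈ Finset.range k₀, ‖M ^ j‖ / η ^ j :=
        Finset.single_le_sum hpos (Finset.mem_range.2 (by omega))
      have h3 : 0 < η ^ k := by positivity
      rw [div_le_iff₀ h3] at h1
      nlinarith
  · push Not at hs
    obtain ⟨μ, hμ, hμη⟩ := hs
    have hμ0 : μ ≠ 0 := by
      intro h0
      rw [h0, norm_zero] at hμη
      linarith
    have h1 := ((ext1_compact hM).hasEigenvalue_iff_mem_spectrum hμ0).2 hμ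
    obtain ⟨f, hf⟩ := h1.exists_hasEigenvector
    exact ⟨μ, f, hμη, hf.2, Module.End.mem_eigenspace_iff.1 hf.1⟩

end cx

variable {E : Type*} [NormedAddCommGroup E] [NormedSpace ℝ E] [CompleteSpace E]

theorem re_zero [Nontrivial E] {a : E →L[ℝ] E} (ha : Skew a) {k : ℂ} {f : CE E} (hf : f ≠ 0)
    (h : CE.ext1 a f = k • f) : k.re = 0 := by
  obtain ⟨C, hC⟩ := (skew_iff a).1 ha
  have hfn : 0 < ‖f‖ := norm_pos_iff.2 hf
  have key : ∀ t : ℝ, |t| ≤ 1 → t * k.re ≤ C * t ^ 2 := by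
    intro t ht
    have h1 : ‖f + (t : ℂ) • (k • f)‖ ≤ (1 + C * t ^ 2) * ‖f‖ := by
      have hnn : 0 ≤ 1 + C * t ^ 2 := by
        obtain ⟨x, hx⟩ := exists_ne (0 : E)
        have := (norm_nonneg _).trans (hC t x ht)
        exact nonneg_of_mul_nonneg_left this (norm_pos_iff.2 hx)
      refine CE.norm_le (by positivity) fun w => ?_
      have e1 : (f + (t : ℂ) • (k • f)).fn w = f.fn w + t • a (f.fn w) := by
        rw [CE.add_apply, ← h]
        congr 1
        show a (f.fn ((t : ℂ) * w)) = _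
        rw [← Complex.real_smul, map_smul, map_smul]
      rw [e1]
      refine (hC t _ ht).trans ?_
      rw [mul_assoc]
      exact mul_le_mul_of_nonneg_left (f.apply_le w) hnn
    have e2 : f + (t : ℂ) • (k • f) = (1 + t * k) • f := by
      rw [add_smul, one_smul, smul_smul]
    rw [e2, norm_smul] at h1
    have h2 := le_of_mul_le_mul_right h1 hfn
    have h3 : (1 + (t : ℂ) * k).re ≤ ‖1 + (t : ℂ) * k‖ := Complex.re_le_norm _
    have h4 : (1 + (t : ℂ) * k).re = 1 + t * k.re := by simp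
    rw [h4] at h3
    linarith
  apply le_antisymm
  · refine le_of_forall_pos_le_add fun ε hε => ?_
    have h0 : (0 : ℝ) < |C| + 1 := by positivity
    set t := min 1 (ε / (|C| + 1)) with ht
    have ht0 : 0 < t := lt_min one_pos (by positivity)
    have h1 := key t (by rw [abs_of_pos ht0]; exact min_le_left _ _)
    have h2 : k.re ≤ C * t := by
      have : t * k.re ≤ t * (C * t) := by linarith [h1, sq t]
      exact le_of_mul_le_mul_left this ht0
    have h3 : C * t ≤ (|C| + 1) * (ε / (|C| + 1)) := by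
      have h4 : C ≤ |C| + 1 := (le_abs_self C).trans (by linarith)
      exact (mul_le_mul_of_nonneg_right h4 ht0.le).trans
        (mul_le_mul_of_nonneg_left (min_le_right _ _) h0.le)
    rw [mul_div_cancel₀ _ h0.ne'] at h3
    linarith
  · refine le_of_forall_pos_le_add fun ε hε => ?_
    have h0 : (0 : ℝ) < |C| + 1 := by positivity
    set t := min 1 (ε / (|C| + 1)) with ht
    have ht0 : 0 < t := lt_min one_pos (by positivity)
    have h1 := key (-t) (by rw [abs_neg, abs_of_pos ht0]; exact min_le_left _ _)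
    have h2 : -k.re ≤ C * t := by
      have : t * (-k.re) ≤ t * (C * t) := by nlinarith [h1]
      exact le_of_mul_le_mul_left this ht0
    have h3 : C * t ≤ (|C| + 1) * (ε / (|C| + 1)) := by
      have h4 : C ≤ |C| + 1 := (le_abs_self C).trans (by linarith)
      exact (mul_le_mul_of_nonneg_right h4 ht0.le).trans
        (mul_le_mul_of_nonneg_left (min_le_right _ _) h0.le)
    rw [mul_div_cancel₀ _ h0.ne'] at h3
    linarith

/-- one step of the chain -/
theorem chain_step [Nontrivial E] {a : E →L[ℝ] E} (ha : Skew a) (hac : IsCompactOperator a) {η : ℝ}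
    (hη : 0 < η) (V : Submodule ℝ E) [FiniteDimensional ℝ V] (P : E →L[ℝ] E) (hP1 : ∀ x, P x ∈ V)
    (hP2 : ∀ v ∈ V, P v = v) (hP3 : ∀ x, P (a x) = a (P x))
    (hbad : ¬ ∃ C : ℝ, ∀ k : ℕ, ‖(a * (1 - P)) ^ k‖ ≤ C * η ^ k) (hV : ∀ v ∈ V, a v ∈ V) :
    ∃ V' : Submodule ℝ E, FiniteDimensional ℝ V' ∧ (∀ v ∈ V', a v ∈ V') ∧ V ≤ V' ∧
      (∃ z ∈ V', z ∉ V) ∧ ∀ z ∈ V', ∀ δ : ℝ, (∀ v ∈ V, δ ≤ ‖z - v‖) →
        ∀ v ∈ V, (η / 2) ^ 2 * δ ≤ (‖a‖ + 1) * ‖a z - v‖ := by
  have hMc : IsCompactOperator ((a * (1 - P) : E →L[ℝ] E)) := hac.comp_clm (1 - P)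
  obtain ⟨k, f, hk, hf, hfk⟩ := exists_eig hMc hη hbad
  have hk0 : k ≠ 0 := by
    intro h0
    rw [h0, norm_zero] at hk
    linarith
  -- the values of `f` are in the kernel of `P`
  have hPf : ∀ w, P (f.fn w) = 0 := by
    intro w
    have h1 : f.fn w = (a * (1 - P)) (f.fn (k⁻¹ * w)) := by
      have h2 := congrArg (fun g : CE E => g.fn (k⁻¹ * w)) hfk
      have h3 : (k • f).fn (k⁻¹ * w) = f.fn w := by
        rw [CE.smul_apply, mul_inv_cancel_left₀ hk0]
      rw [← h3]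
      exact h2.symm
    rw [h1]
    show P (a (f.fn (k⁻¹ * w) - P (f.fn (k⁻¹ * w)))) = 0
    rw [hP3, map_sub, hP2 _ (hP1 _), sub_self, map_zero]
  have hfa : CE.ext1 a f = k • f := by
    rw [← hfk]
    apply CE.ext
    intro w
    show a (f.fn w) = a (f.fn w - P (f.fn w))
    rw [hPf, sub_zero]
  have hre := re_zero ha hf hfa
  set α := k.im with hα
  have hkα : ‖k‖ = |α| := by
    have : k = (α : ℂ) * Complex.I := by
      apply Complex.ext <;> simp [hre, hα]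
    rw [this, norm_mul, Complex.norm_I, mul_one, Complex.norm_real, Real.norm_eq_abs]
  set x := f.fn 1 with hx
  set y := f.fn Complex.I with hy
  have hax : a x = α • y := by
    have h1 := congrArg (fun g : CE E => g.fn 1) hfa
    have h2 : a x = f.fn (k * 1) := h1
    rw [h2, mul_one, fn_eq f k, hre, zero_smul, zero_add]
  have hay : a y = -(α • x) := by
    have h1 := congrArg (fun g : CE E => g.fn Complex.I) hfa
    have h2 : a y = f.fn (k * Complex.I) := h1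
    rw [h2, fn_eq f (k * Complex.I)]
    have e1 : (k * Complex.I).re = -α := by simp [hα]
    have e2 : (k * Complex.I).im = 0 := by simp [hre]
    rw [e1, e2, zero_smul, add_zero, neg_smul]
  set U : Submodule ℝ E := Submodule.span ℝ {x, y} with hU
  have hUfd : FiniteDimensional ℝ U := FiniteDimensional.span_of_finite ℝ (by simp)
  have hxU : x ∈ U := Submodule.subset_span (by simp)
  have hyU : y ∈ U := Submodule.subset_span (by simp)
  have hUa : ∀ u ∈ U, a u ∈ U ∧ a (a u) = -((α ^ 2) • u) ∧ P u = 0 := by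
    intro u hu
    induction hu using Submodule.span_induction with
    | mem u hu =>
      rcases hu with rfl | hu
      · refine ⟨?_, ?_, hPf _⟩
        · rw [hax]
          exact U.smul_mem _ hyU
        · rw [hax, map_smul, hay, smul_neg, smul_smul, sq]
      · rw [Set.mem_singleton_iff] at hu
        subst hu
        refine ⟨?_, ?_, hPf _⟩
        · rw [hay]
          exact U.neg_mem (U.smul_mem _ hxU)
        · rw [hay, map_neg, map_smul, hax, smul_smul, sq]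
    | zero => refine ⟨?_, ?_, ?_⟩ <;> simp
    | add u v _ _ hu hv =>
      refine ⟨?_, ?_, ?_⟩
      · rw [map_add]
        exact U.add_mem hu.1 hv.1
      · rw [map_add, map_add, hu.2.1, hv.2.1, smul_add]
        abel
      · rw [map_add, hu.2.2, hv.2.2, add_zero]
    | smul c u _ hu =>
      refine ⟨?_, ?_, ?_⟩
      · rw [map_smul]
        exact U.smul_mem _ hu.1
      · rw [map_smul, map_smul, hu.2.1, smul_neg, smul_comm]
      · rw [map_smul, hu.2.2, smul_zero]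
  have hVU : ∀ z ∈ V ⊔ U, ∃ v ∈ V, ∃ u ∈ U, v + u = z := fun z hz => Submodule.mem_sup.1 hz
  refine ⟨V ⊔ U, inferInstance, ?_, le_sup_left, ?_, ?_⟩
  · intro z hz
    obtain ⟨v, hv, u, hu, rfl⟩ := hVU z hz
    rw [map_add]
    exact Submodule.add_mem_sup (hV v hv) (hUa u hu).1
  · by_contra hcon
    push Not at hcon
    have hx0 : x = 0 := by
      have h1 := hP2 x (hcon x (Submodule.mem_sup_right hxU))
      rw [(hUa x hxU).2.2] at h1
      exact h1.symm
    have hy0 : y = 0 := by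
      have h1 := hP2 y (hcon y (Submodule.mem_sup_right hyU))
      rw [(hUa y hyU).2.2] at h1
      exact h1.symm
    apply hf
    apply CE.ext
    intro w
    rw [fn_eq f w]
    show w.re • x + w.im • y = 0
    rw [hx0, hy0, smul_zero, smul_zero, add_zero]
  · intro z hz δ hδ v hv
    obtain ⟨v₀, hv₀, u, hu, rfl⟩ := hVU z hz
    have hα0 : α ^ 2 ≠ 0 := by
      intro h0
      have h1 : α = 0 := by simpa using h0
      rw [hkα, h1, abs_zero] at hk
      linarith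
    have hα2 : (η / 2) ^ 2 ≤ α ^ 2 := by
      rw [← sq_abs α, ← hkα]
      exact pow_le_pow_left₀ (by positivity) hk.le 2
    -- `a (a u - v') = - α ^ 2 (u + a v' / α ^ 2)`
    set v' := v - a v₀ with hv'
    have hv'V : v' ∈ V := V.sub_mem hv (hV v₀ hv₀)
    have h1 : a (v₀ + u) - v = a u - v' := by
      rw [map_add, hv']
      abel
    have h2 : a (a u - v') = -((α ^ 2) • (v₀ + u - (v₀ - (α ^ 2)⁻¹ • a v'))) := by
      rw [map_sub, (hUa u hu).2.1]
      have e : v₀ + u - (v₀ - (α ^ 2)⁻¹ • a v') = u + (α ^ 2)⁻¹ • a v' := by abel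
      rw [e, smul_add, smul_smul, mul_inv_cancel₀ hα0, one_smul]
      abel
    have h3 : α ^ 2 * ‖v₀ + u - (v₀ - (α ^ 2)⁻¹ • a v')‖ ≤ ‖a‖ * ‖a u - v'‖ := by
      have h4 := a.le_opNorm (a u - v')
      rw [h2, norm_neg, norm_smul, Real.norm_of_nonneg (sq_nonneg α)] at h4
      exact h4
    have h5 := hδ (v₀ - (α ^ 2)⁻¹ • a v') (V.sub_mem hv₀ (V.smul_mem _ (hV _ hv'V)))
    rw [h1]
    have h6 : ‖a‖ * ‖a u - v'‖ ≤ (‖a‖ + 1) * ‖a u - v'‖ := by
      nlinarith [norm_nonneg (a u - v')]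
    refine le_trans ?_ (h3.trans h6)
    exact (mul_le_mul_of_nonneg_left h5 (by positivity)).trans
      (mul_le_mul_of_nonneg_right hα2 (norm_nonneg _))

/-- **The Riesz decomposition.** -/
theorem riesz [Nontrivial E] {a : E →L[ℝ] E} (ha : Skew a) (hac : IsCompactOperator a) {η : ℝ}
    (hη : 0 < η) : ∃ (V : Submodule ℝ E) (P : E →L[ℝ] E), FiniteDimensional ℝ V ∧ (∀ x, P x ∈ V) ∧
      (∀ v ∈ V, P v = v) ∧ (∀ x, P (a x) = a (P x)) ∧
      ∃ C : ℝ, ∀ k : ℕ, ‖(a * (1 - P)) ^ k‖ ≤ C * η ^ k := by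
  by_contra hcon
  push Not at hcon
  set W := {V : Submodule ℝ E // FiniteDimensional ℝ V ∧ ∀ v ∈ V, a v ∈ V} with hW
  have hstep : ∀ V : W, ∃ V' : W, V.1 ≤ V'.1 ∧ (∃ z ∈ V'.1, z ∉ V.1) ∧ ∀ z ∈ V'.1, ∀ δ : ℝ,
      (∀ v ∈ V.1, δ ≤ ‖z - v‖) → ∀ v ∈ V.1, (η / 2) ^ 2 * δ ≤ (‖a‖ + 1) * ‖a z - v‖ := by
    rintro ⟨V, hVf, hV⟩
    obtain ⟨P, hP1, hP2, hP3⟩ := exists_proj ha V hV
    have hbad : ¬ ∃ C : ℝ, ∀ k : ℕ, ‖(a * (1 - P)) ^ k‖ ≤ C * η ^ k := by
      rintro ⟨C, hC⟩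
      obtain ⟨k, hk⟩ := hcon V P hVf hP1 hP2 hP3 C
      exact absurd (hC k) (not_le.2 hk)
    obtain ⟨V', h1, h2, h3, h4, h5⟩ := chain_step ha hac hη V P hP1 hP2 hP3 hbad hV
    exact ⟨⟨V', h1, h2⟩, h3, h4, h5⟩
  choose nxt hn1 hn2 hn3 using hstep
  let V : ℕ → W := fun n => Nat.rec ⟨⊥, inferInstance, by simp⟩ (fun _ V => nxt V) n
  have hVs : ∀ n, V (n + 1) = nxt (V n) := fun n => rfl
  have hmono : Monotone fun n => (V n).1 := monotone_nat_of_le_succ fun n => hn1 (V n)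
  have hz : ∀ n, ∃ z ∈ (V (n + 1)).1, ‖z‖ = 1 ∧ ∀ v ∈ (V n).1, (1 / 2 : ℝ) ≤ ‖z - v‖ := by
    intro n
    have hfd := (V n).2.1
    have hfd' := (V (n + 1)).2.1
    set F : Submodule ℝ (V (n + 1)).1 := (V n).1.comap (V (n + 1)).1.subtype with hF
    have hFc : IsClosed (F : Set (V (n + 1)).1) := Submodule.closed_of_finiteDimensional F
    obtain ⟨z₁, hz₁, hz₁'⟩ := hn2 (V n)
    obtain ⟨z, -, hz1, hz2⟩ := riesz_lemma_of_lt_one hFc ⟨⟨z₁, hz₁⟩, hz₁'⟩
      (by norm_num : (1 / 2 : ℝ) < 1)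
    exact ⟨z, z.2, hz1, fun v hv => hz2 ⟨v, hn1 (V n) hv⟩ hv⟩
  choose z hz1 hz2 hz3 using hz
  set c : ℝ := (η / 2) ^ 2 * (1 / 2) / (‖a‖ + 1) with hc
  have hc0 : 0 < c := by positivity
  have hsep : ∀ i j : ℕ, i < j → c ≤ ‖a (z j) - a (z i)‖ := by
    intro i j hij
    have h1 : a (z i) ∈ (V j).1 := by
      have h2 : a (z i) ∈ (V (i + 1)).1 := (V (i + 1)).2.2 _ (hz1 i)
      exact hmono (show i + 1 ≤ j from hij) h2
    have h3 := hn3 (V j) (z j) (hz1 j) (1 / 2) (hz3 j) _ h1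
    rw [hc, div_le_iff₀ (by positivity)]
    linarith
  obtain ⟨K, hK, hK'⟩ := hac.image_closedBall_subset_compact 1
  obtain ⟨w, -, φ, hφ, hφw⟩ := hK.tendsto_subseq (x := fun n => a (z n)) (fun n => hK' ⟨z n, by
    rw [mem_closedBall_zero_iff, hz2 n], rfl⟩)
  have hcs := hφw.cauchySeq
  rw [Metric.cauchySeq_iff'] at hcs
  obtain ⟨N, hN⟩ := hcs c hc0
  have h1 := hN (N + 1) (by omega)
  rw [dist_eq_norm] at h1
  exact absurd h1 (not_lt.2 (hsep _ _ (hφ (Nat.lt_succ_self N))))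

end Pool.Agent.W5h44.BMC
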