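import Mathlib

/-!
# Skew operators: generators of norm continuous groups of isometries
-/

set_option autoImplicit false

namespace Pool.Agent.W5h44.BMC

open Filter Topology

section Exp

variable {A : Type*} [NormedRing A] [NormedAlgebra ℝ A] [NormOneClass A] [CompleteSpace A]

omit [NormOneClass A] in
theorem exp_add_c {x y : A} (h : Commute x y) :
    NormedSpace.exp (x + y) = NormedSpace.exp x * NormedSpace.exp y := by
  letI : NormedAlgebra ℚ A := NormedAlgebra.restrictScalars ℚ ℝ A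
  exact NormedSpace.exp_add_of_commute h

omit [NormOneClass A] in
theorem exp_nsmul_c (n : ℕ) (x : A) : NormedSpace.exp (n • x) = NormedSpace.exp x ^ n := by
  letI : NormedAlgebra ℚ A := NormedAlgebra.restrictScalars ℚ ℝ A
  exact NormedSpace.exp_nsmul n x

omit [NormOneClass A] in
theorem exp_tendsto_c {l : Filter ℕ} {u : ℕ → A} {a : A} (h : Tendsto u l (𝓝 a)) :
    Tendsto (fun n => NormedSpace.exp (u n)) l (𝓝 (NormedSpace.exp a)) := by
  letI : NormedAlgebra ℚ A := NormedAlgebra.restrictScalars ℚ ℝ A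
  exact h.exp

theorem norm_exp_le (x : A) : ‖NormedSpace.exp x‖ ≤ Real.exp ‖x‖ := by
  have h := NormedSpace.exp_series_hasSum_exp' (𝕂 := ℝ) x
  have h2 := NormedSpace.exp_series_hasSum_exp' (𝕂 := ℝ) ‖x‖
  rw [← Real.exp_eq_exp_ℝ] at h2
  refine tsum_of_norm_bounded h2 (fun n => ?_) |> fun h3 => by rwa [h.tsum_eq] at h3
  rw [norm_smul, smul_eq_mul, norm_inv, Real.norm_natCast]
  exact mul_le_mul_of_nonneg_left (norm_pow_le x n) (by positivity)

theorem norm_exp_sub_one_sub_le (x : A) :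
    ‖NormedSpace.exp x - 1 - x‖ ≤ Real.exp ‖x‖ - 1 - ‖x‖ := by
  have h := NormedSpace.exp_series_hasSum_exp' (𝕂 := ℝ) x
  have h2 := NormedSpace.exp_series_hasSum_exp' (𝕂 := ℝ) ‖x‖
  rw [← Real.exp_eq_exp_ℝ] at h2
  have h' := (hasSum_nat_add_iff' 2).2 h
  have h2' := (hasSum_nat_add_iff' 2).2 h2
  simp only [Finset.sum_range_succ, Finset.sum_range_zero, zero_add, Nat.factorial_zero,
    Nat.cast_one, inv_one, pow_zero, one_smul, Nat.factorial_one, pow_one] at h' h2'
  have e1 : NormedSpace.exp x - 1 - x = NormedSpace.exp x - (1 + x) := by abel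
  have e2 : Real.exp ‖x‖ - 1 - ‖x‖ = Real.exp ‖x‖ - (1 + ‖x‖) := by ring
  rw [e1, e2, ← h'.tsum_eq]
  refine tsum_of_norm_bounded h2' (fun n => ?_)
  rw [norm_smul, smul_eq_mul, norm_inv, Real.norm_natCast]
  exact mul_le_mul_of_nonneg_left (norm_pow_le x _) (by positivity)

theorem norm_exp_sub_one_le (x : A) : ‖NormedSpace.exp x - 1‖ ≤ Real.exp ‖x‖ - 1 := by
  have h := norm_exp_sub_one_sub_le x
  have h2 : NormedSpace.exp x - 1 = (NormedSpace.exp x - 1 - x) + x := by abel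
  rw [h2]
  refine (norm_add_le _ _).trans ?_
  linarith

theorem norm_exp_sub_one_sub_le_sq {x : A} (hx : ‖x‖ ≤ 1) :
    ‖NormedSpace.exp x - 1 - x‖ ≤ ‖x‖ ^ 2 := by
  refine (norm_exp_sub_one_sub_le x).trans ?_
  have h := Real.abs_exp_sub_one_sub_id_le (x := ‖x‖) (by rwa [abs_of_nonneg (norm_nonneg _)])
  exact (le_abs_self _).trans h

end Exp

variable {E : Type*} [NormedAddCommGroup E] [NormedSpace ℝ E]

/-- the operators `exp (t a)` are contractions for all real `t` -/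
def Skew (a : E →L[ℝ] E) : Prop := ∀ (t : ℝ) (x : E), ‖NormedSpace.exp (t • a) x‖ ≤ ‖x‖

section
variable [CompleteSpace E]

theorem exp_cancel (a : E →L[ℝ] E) (x : E) : NormedSpace.exp (-a) (NormedSpace.exp a x) = x := by
  have h : NormedSpace.exp (-a) * NormedSpace.exp a = 1 := by
    rw [← exp_add_c (Commute.neg_left (Commute.refl a)), neg_add_cancel, NormedSpace.exp_zero]
  have := congrArg (fun u : E →L[ℝ] E => u x) h
  exact this

theorem Skew.norm_exp {a : E →L[ℝ] E} (ha : Skew a) (t : ℝ) (x : E) :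
    ‖NormedSpace.exp (t • a) x‖ = ‖x‖ := by
  refine le_antisymm (ha t x) ?_
  have h1 := ha (-t) (NormedSpace.exp (t • a) x)
  rwa [neg_smul, exp_cancel] at h1

/-- the isometry `exp (t a)` -/
noncomputable def Skew.iso {a : E →L[ℝ] E} (ha : Skew a) (t : ℝ) : E ≃ₗᵢ[ℝ] E where
  toLinearEquiv := LinearEquiv.ofLinearMap (NormedSpace.exp (t • a) : E →L[ℝ] E).toLinearMap
    (NormedSpace.exp (-(t • a)) : E →L[ℝ] E).toLinearMap
    (by
      ext x
      have := exp_cancel (-(t • a)) x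
      rw [neg_neg] at this
      exact this)
    (by
      ext x
      exact exp_cancel (t • a) x)
  norm_map' x := ha.norm_exp t x

theorem Skew.iso_apply {a : E →L[ℝ] E} (ha : Skew a) (t : ℝ) (x : E) :
    ha.iso t x = NormedSpace.exp (t • a) x := rfl

/-- the local form of the condition -/
theorem skew_iff [Nontrivial E] (a : E →L[ℝ] E) : Skew a ↔
    ∃ C : ℝ, ∀ (t : ℝ) (x : E), |t| ≤ 1 → ‖x + t • a x‖ ≤ (1 + C * t ^ 2) * ‖x‖ := by
  constructor
  · intro ha
    refine ⟨Real.exp ‖a‖ * ‖a‖ ^ 2, fun t x ht => ?_⟩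
    have h1 : x + t • a x = NormedSpace.exp (t • a) x - (NormedSpace.exp (t • a) - 1 - t • a) x := by
      have h0 : (NormedSpace.exp (t • a) - 1 - t • a) x = NormedSpace.exp (t • a) x - x - t • a x := rfl
      rw [h0]
      abel
    have h2 : ‖NormedSpace.exp (t • a) - 1 - t • a‖ ≤ Real.exp ‖a‖ * ‖a‖ ^ 2 * t ^ 2 := by
      refine (norm_exp_sub_one_sub_le _).trans ?_
      have h3 : ‖t • a‖ = |t| * ‖a‖ := by rw [norm_smul, Real.norm_eq_abs]
      rw [h3]
      set s := |t| * ‖a‖ with hs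
      have hs0 : 0 ≤ s := by positivity
      have hs1 : s ≤ ‖a‖ := by
        rw [hs]
        exact mul_le_of_le_one_left (norm_nonneg _) ht
      have h4 : Real.exp s - 1 - s ≤ s ^ 2 * Real.exp s := by
        have h5 := Real.add_one_le_exp (-s)
        have h6 : Real.exp s * Real.exp (-s) = 1 := by rw [← Real.exp_add, add_neg_cancel, Real.exp_zero]
        have h7 : Real.exp s * (1 - s) ≤ 1 := by
          have := mul_le_mul_of_nonneg_left h5 (Real.exp_pos s).le
          rw [h6] at this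
          linarith
        have h8 := Real.exp_pos s
        have h9 := Real.add_one_le_exp s
        have h10 : Real.exp s - 1 ≤ s * Real.exp s := by linarith
        have h11 := mul_le_mul_of_nonneg_left h10 hs0
        nlinarith [h11, h10, h9, mul_nonneg hs0 hs0, mul_nonneg hs0 h8.le, mul_nonneg (mul_nonneg hs0 hs0) h8.le]
      refine h4.trans ?_
      have h12 : Real.exp s ≤ Real.exp ‖a‖ := Real.exp_le_exp.2 hs1
      calc s ^ 2 * Real.exp s ≤ s ^ 2 * Real.exp ‖a‖ := mul_le_mul_of_nonneg_left h12 (by positivity)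
        _ = Real.exp ‖a‖ * ‖a‖ ^ 2 * |t| ^ 2 := by rw [hs]; ring
        _ = Real.exp ‖a‖ * ‖a‖ ^ 2 * t ^ 2 := by rw [sq_abs]
    rw [h1]
    calc ‖NormedSpace.exp (t • a) x - (NormedSpace.exp (t • a) - 1 - t • a) x‖
        ≤ ‖NormedSpace.exp (t • a) x‖ + ‖(NormedSpace.exp (t • a) - 1 - t • a) x‖ := norm_sub_le _ _
      _ ≤ ‖x‖ + Real.exp ‖a‖ * ‖a‖ ^ 2 * t ^ 2 * ‖x‖ := by
          refine add_le_add (ha t x) ?_
          exact ((NormedSpace.exp (t • a) - 1 - t • a).le_opNorm x).trans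
            (mul_le_mul_of_nonneg_right h2 (norm_nonneg _))
      _ = _ := by ring
  · rintro ⟨C, hC⟩ t x
    -- `‖exp (s a)‖ ≤ 1 + C' s ^ 2` for `|s| ≤ δ`
    set C' : ℝ := |C| + ‖a‖ ^ 2 with hC'
    have hC'0 : 0 ≤ C' := by positivity
    have h1 : ∀ s : ℝ, |s| ≤ 1 → |s| * ‖a‖ ≤ 1 → ‖NormedSpace.exp (s • a)‖ ≤ 1 + C' * s ^ 2 := by
      intro s hs hs2
      refine ContinuousLinearMap.opNorm_le_bound _ (by positivity) fun y => ?_
      have e1 : NormedSpace.exp (s • a) y = (y + s • a y) + (NormedSpace.exp (s • a) - 1 - s • a) y := by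
        have h0 : (NormedSpace.exp (s • a) - 1 - s • a) y = NormedSpace.exp (s • a) y - y - s • a y := rfl
        rw [h0]
        abel
      rw [e1]
      have h2 : ‖NormedSpace.exp (s • a) - 1 - s • a‖ ≤ ‖a‖ ^ 2 * s ^ 2 := by
        have h3 : ‖s • a‖ = |s| * ‖a‖ := by rw [norm_smul, Real.norm_eq_abs]
        refine (norm_exp_sub_one_sub_le_sq (by rw [h3]; exact hs2)).trans (le_of_eq ?_)
        rw [h3, mul_pow, sq_abs]
        ring
      calc ‖(y + s • a y) + (NormedSpace.exp (s • a) - 1 - s • a) y‖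
          ≤ ‖y + s • a y‖ + ‖(NormedSpace.exp (s • a) - 1 - s • a) y‖ := norm_add_le _ _
        _ ≤ (1 + C * s ^ 2) * ‖y‖ + ‖a‖ ^ 2 * s ^ 2 * ‖y‖ := by
            refine add_le_add (hC s y hs) ?_
            exact (ContinuousLinearMap.le_opNorm _ _).trans
              (mul_le_mul_of_nonneg_right h2 (norm_nonneg _))
        _ ≤ (1 + C' * s ^ 2) * ‖y‖ := by
            rw [hC']
            have : C * s ^ 2 ≤ |C| * s ^ 2 := mul_le_mul_of_nonneg_right (le_abs_self C) (sq_nonneg s)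
            nlinarith [norm_nonneg y, mul_le_mul_of_nonneg_right this (norm_nonneg y)]
    -- powers
    have h2 : ∀ n : ℕ, |t| ≤ n → |t| * ‖a‖ ≤ n → 0 < n →
        ‖NormedSpace.exp (t • a)‖ ≤ Real.exp (C' * t ^ 2 / n) := by
      intro n hn1 hn2 hn0
      have hn : (0 : ℝ) < n := by exact_mod_cast hn0
      have e1 : t • a = n • ((t / n) • a) := by
        rw [← Nat.cast_smul_eq_nsmul ℝ, smul_smul]
        congr 1
        field_simp
      have h3 := h1 (t / n) (by rw [abs_div, Nat.abs_cast, div_le_one hn]; exact hn1)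
        (by rw [abs_div, Nat.abs_cast, div_mul_eq_mul_div, div_le_one hn]; exact hn2)
      rw [e1, exp_nsmul_c]
      calc ‖NormedSpace.exp ((t / n) • a) ^ n‖ ≤ ‖NormedSpace.exp ((t / n) • a)‖ ^ n :=
            norm_pow_le _ _
        _ ≤ (1 + C' * (t / n) ^ 2) ^ n := pow_le_pow_left₀ (norm_nonneg _) h3 n
        _ ≤ (Real.exp (C' * (t / n) ^ 2)) ^ n := by
            refine pow_le_pow_left₀ (by positivity) ?_ n
            linarith [Real.add_one_le_exp (C' * (t / n) ^ 2)]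
        _ = Real.exp (C' * t ^ 2 / n) := by
            rw [← Real.exp_nat_mul]
            congr 1
            field_simp
    have h3 : ‖NormedSpace.exp (t • a)‖ ≤ 1 := by
      have h4 : Tendsto (fun n : ℕ => Real.exp (C' * t ^ 2 / n)) atTop (𝓝 1) := by
        rw [← Real.exp_zero]
        exact (Real.continuous_exp.tendsto 0).comp (tendsto_const_div_atTop_nhds_zero_nat _)
      refine ge_of_tendsto h4 ?_
      obtain ⟨n₁, hn₁⟩ := exists_nat_ge |t|
      obtain ⟨n₂, hn₂⟩ := exists_nat_ge (|t| * ‖a‖)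
      filter_upwards [eventually_ge_atTop (max (max n₁ n₂) 1)] with n hn
      refine h2 n (hn₁.trans ?_) (hn₂.trans ?_) (by omega)
      · exact_mod_cast (le_trans (le_trans (le_max_left _ _) (le_max_left _ _)) hn)
      · exact_mod_cast (le_trans (le_trans (le_max_right _ _) (le_max_left _ _)) hn)
    calc ‖NormedSpace.exp (t • a) x‖ ≤ ‖NormedSpace.exp (t • a)‖ * ‖x‖ := ContinuousLinearMap.le_opNorm _ _
      _ ≤ 1 * ‖x‖ := mul_le_mul_of_nonneg_right h3 (norm_nonneg _)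
      _ = ‖x‖ := one_mul _

omit [CompleteSpace E] in
theorem Skew.smul {a : E →L[ℝ] E} (ha : Skew a) (c : ℝ) : Skew (c • a) := fun t x => by
  rw [smul_smul]
  exact ha _ x

theorem Skew.add [Nontrivial E] {a b : E →L[ℝ] E} (ha : Skew a) (hb : Skew b) : Skew (a + b) := by
  obtain ⟨C, hC⟩ := (skew_iff a).1 ha
  obtain ⟨D, hD⟩ := (skew_iff b).1 hb
  refine (skew_iff _).2 ⟨|C| + |D| + |C| * |D| + ‖a‖ * ‖b‖, fun t x ht => ?_⟩
  have e1 : x + t • (a + b) x = ((x + t • b x) + t • a (x + t • b x)) - (t ^ 2) • a (b x) := by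
    rw [map_add, map_smul, add_apply, smul_add, smul_add, smul_smul, ← sq]
    abel
  rw [e1]
  have h1 := hC t (x + t • b x) ht
  have h2 := hD t x ht
  have ht2 : t ^ 2 ≤ 1 := by
    rw [← sq_abs]
    exact pow_le_one₀ (abs_nonneg _) ht
  have h3 : ‖(t ^ 2) • a (b x)‖ ≤ t ^ 2 * (‖a‖ * ‖b‖ * ‖x‖) := by
    rw [norm_smul, Real.norm_of_nonneg (sq_nonneg t)]
    refine mul_le_mul_of_nonneg_left ?_ (sq_nonneg t)
    calc ‖a (b x)‖ ≤ ‖a‖ * ‖b x‖ := a.le_opNorm _
      _ ≤ ‖a‖ * (‖b‖ * ‖x‖) := mul_le_mul_of_nonneg_left (b.le_opNorm _) (norm_nonneg _)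
      _ = ‖a‖ * ‖b‖ * ‖x‖ := by ring
  have h4 : (1 + C * t ^ 2) * ‖x + t • b x‖ ≤ (1 + |C| * t ^ 2) * ((1 + |D| * t ^ 2) * ‖x‖) := by
    have h5 : (1 + C * t ^ 2) ≤ 1 + |C| * t ^ 2 := by
      have := mul_le_mul_of_nonneg_right (le_abs_self C) (sq_nonneg t)
      linarith
    have h6 : (1 + D * t ^ 2) * ‖x‖ ≤ (1 + |D| * t ^ 2) * ‖x‖ := by
      refine mul_le_mul_of_nonneg_right ?_ (norm_nonneg _)
      have := mul_le_mul_of_nonneg_right (le_abs_self D) (sq_nonneg t)
      linarith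
    exact (mul_le_mul_of_nonneg_right h5 (norm_nonneg _)).trans
      (mul_le_mul_of_nonneg_left (h2.trans h6) (by positivity))
  have h7 : (1 + |C| * t ^ 2) * ((1 + |D| * t ^ 2) * ‖x‖) + t ^ 2 * (‖a‖ * ‖b‖ * ‖x‖) ≤
      (1 + (|C| + |D| + |C| * |D| + ‖a‖ * ‖b‖) * t ^ 2) * ‖x‖ := by
    have h8 : |C| * |D| * (t ^ 2 * t ^ 2) * ‖x‖ ≤ |C| * |D| * t ^ 2 * ‖x‖ := by
      refine mul_le_mul_of_nonneg_right (mul_le_mul_of_nonneg_left ?_ (by positivity)) (norm_nonneg _)
      exact mul_le_of_le_one_left (sq_nonneg t) ht2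
    nlinarith [h8]
  refine (norm_sub_le _ _).trans ((add_le_add (h1.trans h4) h3).trans h7)

theorem Skew.neg {a : E →L[ℝ] E} (ha : Skew a) : Skew (-a) := by
  have := ha.smul (-1)
  rwa [neg_one_smul] at this

theorem Skew.sub [Nontrivial E] {a b : E →L[ℝ] E} (ha : Skew a) (hb : Skew b) : Skew (a - b) := by
  rw [sub_eq_add_neg]
  exact ha.add hb.neg

theorem skew_closed {l : Filter ℕ} [l.NeBot] {u : ℕ → E →L[ℝ] E} {a : E →L[ℝ] E}
    (h : Tendsto u l (𝓝 a)) (hu : ∀ n, Skew (u n)) : Skew a := by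
  intro t x
  have h1 : Tendsto (fun n => NormedSpace.exp (t • u n) x) l (𝓝 (NormedSpace.exp (t • a) x)) := by
    have h2 : Tendsto (fun n => NormedSpace.exp (t • u n)) l (𝓝 (NormedSpace.exp (t • a))) :=
      exp_tendsto_c (h.const_smul t)
    exact ((ContinuousLinearMap.apply ℝ E x).continuous.tendsto _).comp h2
  exact le_of_tendsto h1.norm (Filter.Eventually.of_forall fun n => hu n t x)

end

end Pool.Agent.W5h44.BMC
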